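import Pool.Agent.MPf94db8.Leaf

/-!
# Algebraic properties of the vector field and of its leaf (helper for `MP_f94db8_an`)
-/

open Filter Topology Complex

namespace Pool.Agent.MPf94db8

open Polynomial in
lemma exp_not_rational {P Q : ℂ[X]} (h : ∀ y : ℂ, exp y * P.eval y = Q.eval y) : P = 0 := by
  have hpi : (Real.pi : ℂ) ≠ 0 := by exact_mod_cast Real.pi_ne_zero
  have h1 : P = Q := by
    apply Polynomial.eq_of_infinite_eval_eq
    have hinf : (Set.range fun m : ℕ => (m : ℂ) * (2 * Real.pi * I)).Infinite := by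
      apply Set.infinite_range_of_injective
      intro a b hab
      have h2 : (2 * (Real.pi : ℂ) * I) ≠ 0 := by simp [hpi]
      exact_mod_cast mul_right_cancel₀ h2 hab
    refine hinf.mono ?_
    rintro _ ⟨m, rfl⟩
    have h3 := h ((m : ℂ) * (2 * Real.pi * I))
    rw [Complex.exp_nat_mul_two_pi_mul_I, one_mul] at h3
    exact h3
  apply Polynomial.eq_zero_of_infinite_isRoot
  have hinf : (Set.range fun m : ℕ => (m : ℂ) * (2 * Real.pi * I) + Real.pi * I).Infinite := by
    apply Set.infinite_range_of_injective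
    intro a b hab
    have h2 : (2 * (Real.pi : ℂ) * I) ≠ 0 := by simp [hpi]
    exact_mod_cast mul_right_cancel₀ h2 (add_right_cancel hab)
  refine hinf.mono ?_
  rintro _ ⟨m, rfl⟩
  have h3 := h ((m : ℂ) * (2 * Real.pi * I) + Real.pi * I)
  rw [Complex.exp_add, Complex.exp_nat_mul_two_pi_mul_I, Complex.exp_pi_mul_I, one_mul,
    ← h1] at h3
  change P.eval _ = 0
  linear_combination (-1 / 2 : ℂ) * h3

variable {n : ℕ}

/-- The point `(c, y, 0, …, 0)`. -/
def pt (n : ℕ) (c y : ℂ) (i : Fin (n + 2)) : ℂ := if i = 0 then c else if i = 1 then y else 0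

/-- Restriction of a polynomial to the line `{(c, y, 0, …, 0)}`. -/
noncomputable def resPoly (c : ℂ) (P : MvPolynomial (Fin (n + 2)) ℂ) : Polynomial ℂ :=
  MvPolynomial.aeval (fun i : Fin (n + 2) => if i = 0 then Polynomial.C c else
    if i = 1 then (Polynomial.X : Polynomial ℂ) else 0) P

lemma eval_resPoly (c y : ℂ) (P : MvPolynomial (Fin (n + 2)) ℂ) :
    (resPoly c P).eval y = MvPolynomial.eval (pt n c y) P := by
  unfold resPoly
  induction P using MvPolynomial.induction_on with
  | C a => simp
  | add p q hp hq => simp only [map_add, Polynomial.eval_add, hp, hq]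
  | mul_X p i hp =>
    simp only [map_mul, Polynomial.eval_mul, hp, MvPolynomial.aeval_X, MvPolynomial.eval_X]
    congr 1
    unfold pt
    by_cases h0 : i = 0
    · simp [h0]
    · by_cases h1 : i = 1
      · simp [h1]
      · simp [h0, h1]

theorem not_functionTimesPolynomial : ¬ IsFunctionTimesPolynomial (vf n) := by
  rintro ⟨h, P, -, hP⟩
  have hpt0 : ∀ c y : ℂ, pt n c y 0 = c := fun c y => by simp [pt]
  have hpt1 : ∀ c y : ℂ, pt n c y 1 = y := fun c y => by simp [pt]
  have e0 : ∀ c y : ℂ, al y * c + be y = h (pt n c y) * (resPoly c (P 0)).eval y := by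
    intro c y
    have := hP (pt n c y) 0
    rw [vf_zero, hpt0, hpt1, ← eval_resPoly] at this
    exact this
  have e1 : ∀ c y : ℂ, -y ^ 2 = h (pt n c y) * (resPoly c (P 1)).eval y := by
    intro c y
    have := hP (pt n c y) 1
    rw [vf_one, hpt1, ← eval_resPoly] at this
    exact this
  have e2 : ∀ c y : ℂ, (al y * c + be y) * (resPoly c (P 1)).eval y =
      - y ^ 2 * (resPoly c (P 0)).eval y := by
    intro c y
    rw [e0, e1]
    ring
  set A0 := resPoly 0 (P 1) with hA0
  set A1 := resPoly 1 (P 1) with hA1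
  set B0 := resPoly 0 (P 0) with hB0
  set B1 := resPoly 1 (P 0) with hB1
  -- subtract
  have e3 : ∀ y : ℂ, exp y * (Polynomial.X ^ 2 * A0 * A1).eval y =
      (A0 * A1 + Polynomial.X ^ 2 * (B1 * A0 - B0 * A1)).eval y := by
    intro y
    have f0 := e2 0 y
    have f1 := e2 1 y
    rw [← hA0, ← hB0] at f0
    rw [← hA1, ← hB1] at f1
    simp only [Polynomial.eval_mul, Polynomial.eval_pow, Polynomial.eval_X, Polynomial.eval_add,
      Polynomial.eval_sub]
    unfold al at f0 f1
    linear_combination (Polynomial.eval y A1) * f0 - (Polynomial.eval y A0) * f1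
  have e4 := exp_not_rational e3
  have e5 : A0.eval 1 ≠ 0 := by
    intro hz
    have := e1 0 1
    rw [← hA0, hz] at this
    norm_num at this
  have e6 : A1.eval 1 ≠ 0 := by
    intro hz
    have := e1 1 1
    rw [← hA1, hz] at this
    norm_num at this
  have e7 := congrArg (Polynomial.eval 1) e4
  simp only [Polynomial.eval_mul, Polynomial.eval_pow, Polynomial.eval_X, one_pow, one_mul,
    Polynomial.eval_zero, mul_eq_zero] at e7
  rcases e7 with h | h
  · exact e5 h
  · exact e6 h

end Pool.Agent.MPf94db8
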