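import Mathlib

/-!
# Jensen formula for smooth functions (helper for `MP_f94db8_an`)
-/

open Metric Filter Topology MeasureTheory Complex

namespace Pool.Agent.MPf94db8

/-- the unit vector of angle `θ` -/
noncomputable def unitVec (θ : ℝ) : ℂ := (Real.cos θ : ℂ) + (Real.sin θ : ℂ) * I

lemma continuous_unitVec : Continuous unitVec := by unfold unitVec; fun_prop

/-- The Laplacian `∂_x² u + ∂_y² u`. -/
noncomputable def lap (u : ℂ → ℝ) (ζ : ℂ) : ℝ :=
  fderiv ℝ (fun z => fderiv ℝ u z 1) ζ 1 + fderiv ℝ (fun z => fderiv ℝ u z I) ζ I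

lemma hasDerivAt_param {F F' : ℝ → ℝ → ℝ} (hF : ∀ ρ, Continuous (F ρ))
    (hF' : Continuous (fun q : ℝ × ℝ => F' q.1 q.2))
    (hd : ∀ ρ θ, HasDerivAt (fun ρ => F ρ θ) (F' ρ θ) ρ) (a b ρ₀ : ℝ) :
    HasDerivAt (fun ρ => ∫ θ in a..b, F ρ θ) (∫ θ in a..b, F' ρ₀ θ) ρ₀ := by
  obtain ⟨C, hC⟩ : ∃ C, ∀ q ∈ (closedBall ρ₀ 1 ×ˢ Set.uIcc a b : Set (ℝ × ℝ)),
      ‖F' q.1 q.2‖ ≤ C :=
    ((isCompact_closedBall ρ₀ 1).prod isCompact_uIcc).exists_bound_of_continuousOn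
      hF'.continuousOn
  refine (intervalIntegral.hasDerivAt_integral_of_dominated_loc_of_deriv_le
    (F := F) (F' := F') (bound := fun _ => C) (s := ball ρ₀ 1)
    (ball_mem_nhds ρ₀ one_pos) ?_ ?_ ?_ ?_ ?_ ?_).2
  · exact Eventually.of_forall fun ρ => (hF ρ).aestronglyMeasurable
  · exact (hF ρ₀).intervalIntegrable _ _
  · exact (hF'.comp (by fun_prop : Continuous fun θ : ℝ => (ρ₀, θ))).aestronglyMeasurable
  · refine Eventually.of_forall fun θ hθ ρ hρ => hC (ρ, θ) ⟨ball_subset_closedBall hρ, ?_⟩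
    exact Set.uIoc_subset_uIcc hθ
  · exact intervalIntegrable_const
  · exact Eventually.of_forall fun θ _ ρ _ => hd ρ θ

/-- Polar coordinates on a disc. -/
lemma integral_ball_eq {E : Type*} [NormedAddCommGroup E] [NormedSpace ℝ E] [CompleteSpace E]
    {d : ℂ → E} (hd : Continuous d) {t : ℝ} (ht : 0 ≤ t) :
    ∫ ζ in ball (0 : ℂ) t, d ζ =
      ∫ ρ in (0 : ℝ)..t, ρ • ∫ θ in (-Real.pi)..Real.pi, d ((ρ : ℂ) * unitVec θ) := by
  have h1 : ∫ ζ in ball (0 : ℂ) t, d ζ = ∫ ζ, (ball (0 : ℂ) t).indicator d ζ :=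
    (integral_indicator measurableSet_ball).symm
  rw [h1, ← Complex.integral_comp_polarCoord_symm]
  have h2 : polarCoord.target = Set.Ioi (0 : ℝ) ×ˢ Set.Ioo (-Real.pi) Real.pi := rfl
  rw [h2]
  have h3 : ∀ p : ℝ × ℝ, p ∈ Set.Ioi (0 : ℝ) ×ˢ Set.Ioo (-Real.pi) Real.pi →
      p.1 • (ball (0 : ℂ) t).indicator d (Complex.polarCoord.symm p) =
      (Set.Ioo (0 : ℝ) t ×ˢ (Set.univ : Set ℝ)).indicator
        (fun p : ℝ × ℝ => p.1 • d ((p.1 : ℂ) * unitVec p.2)) p := by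
    rintro p ⟨hp1, hp2⟩
    have hp1' : 0 < p.1 := hp1
    have e : Complex.polarCoord.symm p = (p.1 : ℂ) * unitVec p.2 := by
      rw [Complex.polarCoord_symm_apply]; rfl
    by_cases hpt : p.1 < t
    · have hm : Complex.polarCoord.symm p ∈ ball (0 : ℂ) t := by
        rw [mem_ball_zero_iff, Complex.norm_polarCoord_symm, abs_of_pos hp1']; exact hpt
      have hm2 : p ∈ Set.Ioo (0 : ℝ) t ×ˢ (Set.univ : Set ℝ) := ⟨⟨hp1', hpt⟩, trivial⟩
      rw [Set.indicator_of_mem hm, Set.indicator_of_mem hm2, e]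
    · have hm : Complex.polarCoord.symm p ∉ ball (0 : ℂ) t := by
        rw [mem_ball_zero_iff, Complex.norm_polarCoord_symm, abs_of_pos hp1']; exact hpt
      rw [Set.indicator_of_notMem hm, smul_zero, Set.indicator_of_notMem]
      rintro ⟨⟨-, h⟩, -⟩
      exact hpt h
  rw [setIntegral_congr_fun (measurableSet_Ioi.prod measurableSet_Ioo) h3,
    setIntegral_indicator (measurableSet_Ioo.prod MeasurableSet.univ)]
  have h4 : (Set.Ioi (0 : ℝ) ×ˢ Set.Ioo (-Real.pi) Real.pi) ∩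
      (Set.Ioo (0 : ℝ) t ×ˢ (Set.univ : Set ℝ)) =
      Set.Ioo (0 : ℝ) t ×ˢ Set.Ioo (-Real.pi) Real.pi := by
    ext p
    simp only [Set.mem_inter_iff, Set.mem_prod, Set.mem_Ioi, Set.mem_Ioo, Set.mem_univ, and_true]
    constructor
    · rintro ⟨⟨h1, h2⟩, h3⟩; exact ⟨h3, h2⟩
    · rintro ⟨h3, h2⟩; exact ⟨⟨h3.1, h2⟩, h3⟩
  rw [h4]
  have hcont : Continuous (fun p : ℝ × ℝ => p.1 • d ((p.1 : ℂ) * unitVec p.2)) := by
    have := continuous_unitVec
    fun_prop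
  have hint : IntegrableOn (fun p : ℝ × ℝ => p.1 • d ((p.1 : ℂ) * unitVec p.2))
      (Set.Ioo (0 : ℝ) t ×ˢ Set.Ioo (-Real.pi) Real.pi) (volume.prod volume) := by
    refine (hcont.continuousOn.integrableOn_compact
      (μ := volume.prod volume) (K := Set.Icc 0 t ×ˢ Set.Icc (-Real.pi) Real.pi)
      (isCompact_Icc.prod isCompact_Icc)).mono_set ?_
    exact Set.prod_mono Set.Ioo_subset_Icc_self Set.Ioo_subset_Icc_self
  rw [Measure.volume_eq_prod, setIntegral_prod _ hint, intervalIntegral.integral_of_le ht,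
    ← integral_Ioc_eq_integral_Ioo]
  refine setIntegral_congr_fun measurableSet_Ioc fun ρ _ => ?_
  simp only
  rw [intervalIntegral.integral_of_le (by linarith [Real.pi_pos]), integral_Ioc_eq_integral_Ioo,
    integral_smul]

section Main

variable {u : ℂ → ℝ}

lemma unitVec_eq (θ : ℝ) : unitVec θ = (Real.cos θ) • (1 : ℂ) + (Real.sin θ) • I := by
  simp [unitVec]

lemma hasDerivAt_unitVec (θ : ℝ) : HasDerivAt unitVec (I * unitVec θ) θ := by
  unfold unitVec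
  have h1 : HasDerivAt (fun θ : ℝ => ((Real.cos θ : ℝ) : ℂ)) ((-Real.sin θ : ℝ) : ℂ) θ :=
    (Real.hasDerivAt_cos θ).ofReal_comp
  have h2 : HasDerivAt (fun θ : ℝ => ((Real.sin θ : ℝ) : ℂ)) ((Real.cos θ : ℝ) : ℂ) θ :=
    (Real.hasDerivAt_sin θ).ofReal_comp
  have h3 := h1.add (h2.mul_const I)
  refine h3.congr_deriv ?_
  push_cast
  linear_combination (-(Complex.sin (θ : ℂ))) * I_mul_I

lemma hasDerivAt_radial {v : ℂ → ℝ} (hv : Differentiable ℝ v) (ρ θ : ℝ) :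
    HasDerivAt (fun ρ : ℝ => v ((ρ : ℂ) * unitVec θ))
      (fderiv ℝ v ((ρ : ℂ) * unitVec θ) (unitVec θ)) ρ := by
  have h1 : HasDerivAt (fun ρ : ℝ => (ρ : ℂ) * unitVec θ) (unitVec θ) ρ := by
    have := (Complex.ofRealCLM.hasDerivAt (x := ρ)).mul_const (unitVec θ)
    simpa using this
  exact (hv _).hasFDerivAt.comp_hasDerivAt ρ h1

lemma hasDerivAt_angular {v : ℂ → ℝ} (hv : Differentiable ℝ v) (ρ θ : ℝ) :
    HasDerivAt (fun θ : ℝ => v ((ρ : ℂ) * unitVec θ))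
      (fderiv ℝ v ((ρ : ℂ) * unitVec θ) ((ρ : ℂ) * (I * unitVec θ))) θ := by
  have h1 : HasDerivAt (fun θ : ℝ => (ρ : ℂ) * unitVec θ) ((ρ : ℂ) * (I * unitVec θ)) θ :=
    (hasDerivAt_unitVec θ).const_mul _
  exact (hv _).hasFDerivAt.comp_hasDerivAt θ h1

/-- first partial derivative -/
noncomputable def dx (u : ℂ → ℝ) (z : ℂ) : ℝ := fderiv ℝ u z 1
/-- second partial derivative -/
noncomputable def dy (u : ℂ → ℝ) (z : ℂ) : ℝ := fderiv ℝ u z I

lemma contDiff_dx (hu : ContDiff ℝ 2 u) : ContDiff ℝ 1 (dx u) :=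
  (hu.fderiv_right (m := 1) (by norm_num)).clm_apply contDiff_const

lemma contDiff_dy (hu : ContDiff ℝ 2 u) : ContDiff ℝ 1 (dy u) :=
  (hu.fderiv_right (m := 1) (by norm_num)).clm_apply contDiff_const

lemma continuous_lap (hu : ContDiff ℝ 2 u) : Continuous (lap u) := by
  have h1 : Continuous (fderiv ℝ (dx u)) := (contDiff_dx hu).continuous_fderiv (by norm_num)
  have h2 : Continuous (fderiv ℝ (dy u)) := (contDiff_dy hu).continuous_fderiv (by norm_num)
  exact (h1.clm_apply continuous_const).add (h2.clm_apply continuous_const)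

/-- normal derivative on the circle of radius `ρ` -/
noncomputable def nrm (u : ℂ → ℝ) (ρ θ : ℝ) : ℝ :=
  dx u ((ρ : ℂ) * unitVec θ) * Real.cos θ + dy u ((ρ : ℂ) * unitVec θ) * Real.sin θ

lemma fderiv_unitVec (v : ℂ → ℝ) (z : ℂ) (θ : ℝ) :
    fderiv ℝ v z (unitVec θ) = Real.cos θ * fderiv ℝ v z 1 + Real.sin θ * fderiv ℝ v z I := by
  rw [unitVec_eq, map_add, map_smul, map_smul, smul_eq_mul, smul_eq_mul]

lemma fderiv_I_unitVec (v : ℂ → ℝ) (z : ℂ) (ρ θ : ℝ) :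
    fderiv ℝ v z ((ρ : ℂ) * (I * unitVec θ)) =
      ρ * (-Real.sin θ * fderiv ℝ v z 1 + Real.cos θ * fderiv ℝ v z I) := by
  have e : (ρ : ℂ) * (I * unitVec θ) =
      (-(ρ * Real.sin θ)) • (1 : ℂ) + (ρ * Real.cos θ) • I := by
    unfold unitVec
    simp only [Complex.real_smul]
    push_cast
    linear_combination ((ρ : ℂ) * Complex.sin (θ : ℂ)) * I_mul_I
  rw [e, map_add, map_smul, map_smul, smul_eq_mul, smul_eq_mul]
  ring

lemma continuous_nrm (hu : ContDiff ℝ 2 u) : Continuous (fun q : ℝ × ℝ => nrm u q.1 q.2) := by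
  have h1 := (contDiff_dx hu).continuous
  have h2 := (contDiff_dy hu).continuous
  have h3 := continuous_unitVec
  unfold nrm
  fun_prop

/-- The circle integral `∫_{-π}^{π} u(ρ e^{iθ}) dθ`. -/
noncomputable def circInt (u : ℂ → ℝ) (ρ : ℝ) : ℝ :=
  ∫ θ in (-Real.pi)..Real.pi, u ((ρ : ℂ) * unitVec θ)

lemma hasDerivAt_circInt (hu : ContDiff ℝ 2 u) (ρ : ℝ) :
    HasDerivAt (circInt u) (∫ θ in (-Real.pi)..Real.pi, nrm u ρ θ) ρ := by
  have h3 := continuous_unitVec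
  have hc := hu.continuous
  refine hasDerivAt_param (F := fun ρ θ => u ((ρ : ℂ) * unitVec θ)) (F' := fun ρ θ => nrm u ρ θ)
    (fun ρ => by fun_prop) (continuous_nrm hu) (fun ρ θ => ?_) _ _ _
  have h := hasDerivAt_radial (hu.differentiable (by norm_num)) ρ θ
  rw [fderiv_unitVec] at h
  refine h.congr_deriv ?_
  unfold nrm dx dy
  ring

/-- derivative of `ρ ↦ ρ ∂_ρ u` -/
noncomputable def dnrm (u : ℂ → ℝ) (ρ θ : ℝ) : ℝ :=
  nrm u ρ θ + ρ * (fderiv ℝ (dx u) ((ρ : ℂ) * unitVec θ) (unitVec θ) * Real.cos θ +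
    fderiv ℝ (dy u) ((ρ : ℂ) * unitVec θ) (unitVec θ) * Real.sin θ)

/-- the tangential derivative -/
noncomputable def tng (u : ℂ → ℝ) (ρ θ : ℝ) : ℝ :=
  - dx u ((ρ : ℂ) * unitVec θ) * Real.sin θ + dy u ((ρ : ℂ) * unitVec θ) * Real.cos θ

lemma hasDerivAt_tng (hu : ContDiff ℝ 2 u) (ρ θ : ℝ) :
    HasDerivAt (fun θ => tng u ρ θ)
      (ρ * lap u ((ρ : ℂ) * unitVec θ) - dnrm u ρ θ) θ := by
  have h1 := hasDerivAt_angular ((contDiff_dx hu).differentiable (by norm_num)) ρ θ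
  have h2 := hasDerivAt_angular ((contDiff_dy hu).differentiable (by norm_num)) ρ θ
  have h3 := ((h1.neg).mul (Real.hasDerivAt_sin θ)).add (h2.mul (Real.hasDerivAt_cos θ))
  refine h3.congr_deriv ?_
  rw [fderiv_I_unitVec, fderiv_I_unitVec]
  unfold dnrm nrm lap
  rw [fderiv_unitVec, fderiv_unitVec]
  have hcs := Real.sin_sq_add_cos_sq θ
  simp only [Pi.neg_apply]
  change _ = ρ * (fderiv ℝ (dx u) ((ρ : ℂ) * unitVec θ) 1 +
    fderiv ℝ (dy u) ((ρ : ℂ) * unitVec θ) I) - _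
  set a := fderiv ℝ (dx u) ((ρ : ℂ) * unitVec θ) 1
  set b := fderiv ℝ (dx u) ((ρ : ℂ) * unitVec θ) I
  set c := fderiv ℝ (dy u) ((ρ : ℂ) * unitVec θ) 1
  set d := fderiv ℝ (dy u) ((ρ : ℂ) * unitVec θ) I
  linear_combination (ρ * a + ρ * d) * hcs

lemma continuous_dnrm (hu : ContDiff ℝ 2 u) : Continuous (fun q : ℝ × ℝ => dnrm u q.1 q.2) := by
  have h0 := continuous_nrm hu
  have h1 : Continuous (fderiv ℝ (dx u)) := (contDiff_dx hu).continuous_fderiv (by norm_num)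
  have h2 : Continuous (fderiv ℝ (dy u)) := (contDiff_dy hu).continuous_fderiv (by norm_num)
  have h3 := continuous_unitVec
  have h4 : Continuous (fun q : ℝ × ℝ =>
      fderiv ℝ (dx u) ((q.1 : ℂ) * unitVec q.2) (unitVec q.2)) :=
    (h1.comp (by fun_prop)).clm_apply (by fun_prop)
  have h5 : Continuous (fun q : ℝ × ℝ =>
      fderiv ℝ (dy u) ((q.1 : ℂ) * unitVec q.2) (unitVec q.2)) :=
    (h2.comp (by fun_prop)).clm_apply (by fun_prop)
  unfold dnrm
  fun_prop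

lemma hasDerivAt_mul_nrm (hu : ContDiff ℝ 2 u) (ρ θ : ℝ) :
    HasDerivAt (fun ρ => ρ * nrm u ρ θ) (dnrm u ρ θ) ρ := by
  have h1 := hasDerivAt_radial ((contDiff_dx hu).differentiable (by norm_num)) ρ θ
  have h2 := hasDerivAt_radial ((contDiff_dy hu).differentiable (by norm_num)) ρ θ
  have h3 := (hasDerivAt_id ρ).mul ((h1.mul_const (Real.cos θ)).add (h2.mul_const (Real.sin θ)))
  refine h3.congr_deriv ?_
  unfold dnrm nrm
  simp only [id_eq, Pi.add_apply]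
  ring

lemma tng_periodic (ρ : ℝ) : tng u ρ Real.pi = tng u ρ (-Real.pi) := by
  unfold tng unitVec
  simp

lemma integral_dnrm (hu : ContDiff ℝ 2 u) (ρ : ℝ) :
    ∫ θ in (-Real.pi)..Real.pi, dnrm u ρ θ =
      ρ * ∫ θ in (-Real.pi)..Real.pi, lap u ((ρ : ℂ) * unitVec θ) := by
  have hl := continuous_lap hu
  have h3 := continuous_unitVec
  have hd : Continuous (fun θ => dnrm u ρ θ) :=
    (continuous_dnrm hu).comp (by fun_prop : Continuous fun θ : ℝ => (ρ, θ))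
  have h4 : ∫ θ in (-Real.pi)..Real.pi, (ρ * lap u ((ρ : ℂ) * unitVec θ) - dnrm u ρ θ) = 0 := by
    rw [intervalIntegral.integral_eq_sub_of_hasDerivAt (f := fun θ => tng u ρ θ)
      (fun θ _ => hasDerivAt_tng hu ρ θ), tng_periodic, sub_self]
    exact (by fun_prop : Continuous fun θ => ρ * lap u ((ρ : ℂ) * unitVec θ) -
      dnrm u ρ θ).intervalIntegrable _ _
  rw [intervalIntegral.integral_sub ((by fun_prop : Continuous fun θ =>
      ρ * lap u ((ρ : ℂ) * unitVec θ)).intervalIntegrable _ _) (hd.intervalIntegrable _ _),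
    intervalIntegral.integral_const_mul] at h4
  linarith

/-- Green formula on a disc. -/
lemma integral_ball_lap (hu : ContDiff ℝ 2 u) {t : ℝ} (ht : 0 ≤ t) :
    ∫ ζ in ball (0 : ℂ) t, lap u ζ = t * ∫ θ in (-Real.pi)..Real.pi, nrm u t θ := by
  rw [integral_ball_eq (continuous_lap hu) ht]
  have hn := continuous_nrm hu
  have h1 : ∀ ρ : ℝ, HasDerivAt (fun ρ => ∫ θ in (-Real.pi)..Real.pi, ρ * nrm u ρ θ)
      (ρ • ∫ θ in (-Real.pi)..Real.pi, lap u ((ρ : ℂ) * unitVec θ)) ρ := by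
    intro ρ
    rw [smul_eq_mul, ← integral_dnrm hu]
    refine hasDerivAt_param (F := fun ρ θ => ρ * nrm u ρ θ) (F' := fun ρ θ => dnrm u ρ θ)
      (fun ρ => ?_) (continuous_dnrm hu) (fun ρ θ => hasDerivAt_mul_nrm hu ρ θ) _ _ _
    exact continuous_const.mul (hn.comp (by fun_prop : Continuous fun θ : ℝ => (ρ, θ)))
  have hl := continuous_lap hu
  have h3 := continuous_unitVec
  have hcont : Continuous (fun ρ : ℝ =>
      ρ • ∫ θ in (-Real.pi)..Real.pi, lap u ((ρ : ℂ) * unitVec θ)) := by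
    refine continuous_id.smul ?_
    exact intervalIntegral.continuous_parametric_intervalIntegral_of_continuous' (by fun_prop) _ _
  rw [intervalIntegral.integral_eq_sub_of_hasDerivAt (fun ρ _ => h1 ρ)
    (hcont.intervalIntegrable _ _)]
  simp [intervalIntegral.integral_const_mul]

/-- **Jensen formula** for functions of class `C²`. -/
theorem jensen_smooth (hu : ContDiff ℝ 2 u) {r : ℝ} (hr : 0 ≤ r) :
    ∫ t in (0 : ℝ)..r, (1 / t) * ∫ ζ in ball (0 : ℂ) t, lap u ζ =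
      circInt u r - 2 * Real.pi * u 0 := by
  have hn := continuous_nrm hu
  have h1 : ∫ t in (0 : ℝ)..r, (1 / t) * ∫ ζ in ball (0 : ℂ) t, lap u ζ =
      ∫ t in (0 : ℝ)..r, ∫ θ in (-Real.pi)..Real.pi, nrm u t θ := by
    rw [intervalIntegral.integral_of_le hr, intervalIntegral.integral_of_le hr]
    refine setIntegral_congr_fun measurableSet_Ioc fun t ht => ?_
    rw [integral_ball_lap hu ht.1.le]
    have : t ≠ 0 := ht.1.ne'
    field_simp
  have hcont : Continuous (fun t : ℝ => ∫ θ in (-Real.pi)..Real.pi, nrm u t θ) :=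
    intervalIntegral.continuous_parametric_intervalIntegral_of_continuous' (by fun_prop) _ _
  rw [h1, intervalIntegral.integral_eq_sub_of_hasDerivAt
    (fun ρ _ => hasDerivAt_circInt hu ρ) (hcont.intervalIntegrable _ _)]
  congr 1
  unfold circInt
  simp only [Complex.ofReal_zero, zero_mul, intervalIntegral.integral_const, smul_eq_mul]
  ring

end Main

end Pool.Agent.MPf94db8
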