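import Pool.Agent.MPf94db8.Defs
import Pool.Agent.MPf94db8.Jensen

/-!
# Linearity of the Nevanlinna integral (helper for `MP_f94db8_an`)
-/

open Metric Filter Topology MeasureTheory Complex
open scoped ContDiff

namespace Pool.Agent.MPf94db8

lemma intervalIntegrable_avg {E : Type*} [NormedAddCommGroup E] [NormedSpace ℝ E]
    [CompleteSpace E] {d : ℂ → E} (hd : Continuous d) {r : ℝ} (hr : 0 ≤ r) :
    IntervalIntegrable (fun t : ℝ => (1 / t : ℝ) • ∫ ζ in ball (0 : ℂ) t, d ζ) volume 0 r := by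
  have hc : Continuous (fun ρ : ℝ => ∫ θ in (-Real.pi)..Real.pi, d ((ρ : ℂ) * unitVec θ)) := by
    have := continuous_unitVec
    exact intervalIntegral.continuous_parametric_intervalIntegral_of_continuous'
      (by fun_prop) _ _
  set c : ℝ → E := fun ρ => ∫ θ in (-Real.pi)..Real.pi, d ((ρ : ℂ) * unitVec θ) with hcdef
  have hint : ∀ a b : ℝ, IntervalIntegrable (fun ρ => ρ • c ρ) volume a b := fun a b =>
    Continuous.intervalIntegrable (by fun_prop) _ _
  have hF : Continuous (fun t : ℝ => ∫ ρ in (0 : ℝ)..t, ρ • c ρ) :=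
    intervalIntegral.continuous_primitive hint 0
  obtain ⟨M, hM⟩ := (isCompact_Icc (a := (0 : ℝ)) (b := r)).exists_bound_of_continuousOn
    (f := fun ρ => ρ • c ρ) (by fun_prop)
  have h1 : IntegrableOn (fun t : ℝ => (1 / t : ℝ) • ∫ ρ in (0 : ℝ)..t, ρ • c ρ)
      (Set.Ioc 0 r) volume := by
    refine Integrable.of_bound (C := M) ?_ ?_
    · apply ContinuousOn.aestronglyMeasurable _ measurableSet_Ioc
      apply ContinuousOn.smul
      · apply ContinuousOn.div continuousOn_const continuousOn_id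
        intro t ht
        exact ht.1.ne'
      · exact hF.continuousOn
    · rw [ae_restrict_iff' measurableSet_Ioc]
      refine Eventually.of_forall fun t ht => ?_
      have h2 : ‖∫ ρ in (0 : ℝ)..t, ρ • c ρ‖ ≤ M * |t - 0| := by
        apply intervalIntegral.norm_integral_le_of_norm_le_const
        intro x hx
        rw [Set.uIoc_of_le ht.1.le] at hx
        exact hM x ⟨hx.1.le, hx.2.trans ht.2⟩
      rw [sub_zero, abs_of_pos ht.1] at h2
      rw [norm_smul, Real.norm_eq_abs, abs_of_pos (one_div_pos.2 ht.1)]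
      calc 1 / t * ‖∫ ρ in (0 : ℝ)..t, ρ • c ρ‖ ≤ 1 / t * (M * t) :=
            mul_le_mul_of_nonneg_left h2 (one_div_pos.2 ht.1).le
        _ = M := by
            have := ht.1.ne'
            field_simp
  rw [intervalIntegrable_iff_integrableOn_Ioc_of_le hr]
  refine h1.congr_fun ?_ measurableSet_Ioc
  intro t ht
  change (1 / t : ℝ) • (∫ ρ in (0 : ℝ)..t, ρ • c ρ) = (1 / t : ℝ) • ∫ ζ in ball (0 : ℂ) t, d ζ
  rw [integral_ball_eq hd ht.1.le]

lemma integrableOn_ball {E : Type*} [NormedAddCommGroup E] {d : ℂ → E} (hd : Continuous d)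
    (t : ℝ) : IntegrableOn d (ball (0 : ℂ) t) volume :=
  (hd.continuousOn.integrableOn_compact (isCompact_closedBall (0 : ℂ) t)).mono_set
    ball_subset_closedBall

lemma nevanlinnaIntegral_add {d e : ℂ → ℂ} (hd : Continuous d) (he : Continuous e) {r : ℝ}
    (hr : 0 ≤ r) : nevanlinnaIntegral (fun ζ => d ζ + e ζ) r =
      nevanlinnaIntegral d r + nevanlinnaIntegral e r := by
  unfold nevanlinnaIntegral
  rw [← intervalIntegral.integral_add (intervalIntegrable_avg hd hr)
    (intervalIntegrable_avg he hr)]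
  congr 1
  funext t
  rw [integral_add (integrableOn_ball hd t) (integrableOn_ball he t), smul_add]

lemma nevanlinnaIntegral_const_mul (d : ℂ → ℂ) (c : ℂ) (r : ℝ) :
    nevanlinnaIntegral (fun ζ => c * d ζ) r = c * nevanlinnaIntegral d r := by
  unfold nevanlinnaIntegral
  rw [← intervalIntegral.integral_const_mul]
  congr 1
  funext t
  rw [MeasureTheory.integral_const_mul, Complex.real_smul, Complex.real_smul]
  ring

/-- real version -/
noncomputable def realNev (e : ℂ → ℝ) (r : ℝ) : ℝ :=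
  ∫ t in (0 : ℝ)..r, (1 / t) * ∫ ζ in ball (0 : ℂ) t, e ζ

lemma nevanlinnaIntegral_ofReal (e : ℂ → ℝ) (r : ℝ) :
    nevanlinnaIntegral (fun ζ => ((e ζ : ℝ) : ℂ)) r = ((realNev e r : ℝ) : ℂ) := by
  unfold nevanlinnaIntegral realNev
  have h1 : ∀ t : ℝ, (1 / t : ℝ) • ∫ ζ in ball (0 : ℂ) t, ((e ζ : ℝ) : ℂ) =
      (((1 / t) * (∫ ζ in ball (0 : ℂ) t, e ζ) : ℝ) : ℂ) := by
    intro t
    rw [integral_complex_ofReal, Complex.real_smul, ← Complex.ofReal_mul]
  simp only [h1]
  rw [intervalIntegral.integral_ofReal]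

lemma norm_nevanlinnaIntegral_le {d : ℂ → ℂ} {e : ℂ → ℝ} (he : Continuous e)
    (h : ∀ ζ, ‖d ζ‖ ≤ e ζ) {r : ℝ} (hr : 0 ≤ r) :
    ‖nevanlinnaIntegral d r‖ ≤ realNev e r := by
  unfold nevanlinnaIntegral realNev
  apply intervalIntegral.norm_integral_le_of_norm_le hr
  · refine Eventually.of_forall fun t ht => ?_
    rw [norm_smul, Real.norm_eq_abs, abs_of_pos (one_div_pos.2 ht.1)]
    apply mul_le_mul_of_nonneg_left _ (one_div_pos.2 ht.1).le
    apply norm_integral_le_of_norm_le (integrableOn_ball he t)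
    exact Eventually.of_forall h
  · exact intervalIntegrable_avg he hr

lemma realNev_const_mul (e : ℂ → ℝ) (c : ℝ) (r : ℝ) :
    realNev (fun ζ => c * e ζ) r = c * realNev e r := by
  unfold realNev
  rw [← intervalIntegral.integral_const_mul]
  congr 1
  funext t
  rw [MeasureTheory.integral_const_mul]
  ring

end Pool.Agent.MPf94db8
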