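import Pool.Agent.MPf94db8.Avg

/-!
# Existence of cluster points of the Nevanlinna currents (helper for `MP_f94db8_an`)
-/

open Metric Filter Topology MeasureTheory Complex
open scoped ContDiff

namespace Pool.Agent.MPf94db8

/-- Sequential Banach-Alaoglu theorem. -/
lemma exists_weak_limit {E : Type*} [NormedAddCommGroup E] [NormedSpace ℂ E]
    [TopologicalSpace.SeparableSpace E] {C : ℝ} (L : ℕ → E →L[ℂ] ℂ) (hL : ∀ m, ‖L m‖ ≤ C) :
    ∃ (ℓ : E → ℂ) (σ : ℕ → ℕ), StrictMono σ ∧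
      ∀ x, Tendsto (fun j => L (σ j) x) atTop (𝓝 (ℓ x)) := by
  have hseq := WeakDual.isSeqCompact_closedBall ℂ E (0 : StrongDual ℂ E) C
  obtain ⟨ℓ, -, σ, hσ, hlim⟩ := hseq (x := fun m => StrongDual.toWeakDual (L m)) (by
    intro m
    change L m ∈ closedBall (0 : StrongDual ℂ E) _
    rw [mem_closedBall_zero_iff]
    exact hL m)
  refine ⟨fun x => ℓ x, σ, hσ, fun x => ?_⟩
  have := (WeakDual.eval_continuous x).tendsto ℓ |>.comp hlim
  exact this

/-- `|z|²` -/
noncomputable def nsq {k : ℕ} (z : Fin (k + 1) → ℂ) : ℝ := ∑ l, ‖z l‖ ^ 2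

/-- The unit sphere. -/
def sph (k : ℕ) : Set (Fin (k + 1) → ℂ) := {z | nsq z = 1}

lemma continuous_nsq {k : ℕ} : Continuous (nsq : (Fin (k + 1) → ℂ) → ℝ) := by
  unfold nsq
  fun_prop

lemma isCompact_sph (k : ℕ) : IsCompact (sph k) := by
  apply Metric.isCompact_of_isClosed_isBounded
  · exact isClosed_eq continuous_nsq continuous_const
  · refine (isBounded_closedBall (x := (0 : Fin (k + 1) → ℂ)) (r := 1)).subset ?_
    intro z hz
    rw [mem_closedBall_zero_iff, pi_norm_le_iff_of_nonneg zero_le_one]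
    intro i
    have h1 : ‖z i‖ ^ 2 ≤ 1 := by
      have h2 : nsq z = 1 := hz
      rw [← h2]
      exact Finset.single_le_sum (f := fun l => ‖z l‖ ^ 2)
        (fun _ _ => by positivity) (Finset.mem_univ i)
    exact (sq_le_one_iff₀ (norm_nonneg _)).1 h1

lemma compactSpace_sph (k : ℕ) : CompactSpace (sph k) := isCompact_iff_compactSpace.1
  (isCompact_sph k)

section Curve

variable {k : ℕ} (φ : ℂ → (Fin k → ℂ))

/-- lifted point -/
noncomputable def lz (s : ℂ) : Fin (k + 1) → ℂ := Fin.cons 1 (φ s)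

/-- lifted velocity -/
noncomputable def lv (s : ℂ) : Fin (k + 1) → ℂ := Fin.cons 0 (deriv φ s)

/-- hermitian product `∑ conj z_l v_l` divided by `|z|²` -/
noncomputable def al' (s : ℂ) : ℂ :=
  (∑ l, (starRingEnd ℂ) (lz φ s l) * lv φ s l) / ((nsq (lz φ s) : ℝ) : ℂ)

/-- projected velocity -/
noncomputable def lp (s : ℂ) (i : Fin (k + 1)) : ℂ := lv φ s i - al' φ s * lz φ s i

/-- density of Fubini-Study -/
noncomputable def dens (s : ℂ) : ℝ := (∑ i, ‖lp φ s i‖ ^ 2) / nsq (lz φ s)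

lemma nsq_pos (s : ℂ) : 0 < nsq (lz φ s) := by
  unfold nsq
  have h1 : 0 < ‖lz φ s 0‖ ^ 2 := by
    have : lz φ s 0 = 1 := rfl
    rw [this]
    simp
  exact h1.trans_le (Finset.single_le_sum (f := fun l => ‖lz φ s l‖ ^ 2)
    (fun _ _ => by positivity) (Finset.mem_univ 0))

lemma lz_ne_zero (s : ℂ) : lz φ s ≠ 0 := by
  intro h
  have := congrFun h 0
  have h2 : lz φ s 0 = 1 := rfl
  rw [h2] at this
  simp at this

lemma sum_norm_sq_lz (s : ℂ) : ((nsq (lz φ s) : ℝ) : ℂ) =
    ∑ l, lz φ s l * (starRingEnd ℂ) (lz φ s l) := by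
  unfold nsq
  push_cast
  apply Finset.sum_congr rfl
  intro l _
  rw [Complex.mul_conj, Complex.normSq_eq_norm_sq]
  push_cast
  rfl

variable {φ} (hφ : Differentiable ℂ φ)
include hφ

lemma continuous_lz : Continuous (lz φ) := by
  unfold lz
  exact continuous_const.finCons hφ.continuous

lemma continuous_lv : Continuous (lv φ) := by
  unfold lv
  have : Continuous (deriv φ) := (hφ.contDiff (n := 1)).continuous_deriv le_rfl
  exact continuous_const.finCons this

lemma continuous_lz_apply (i : Fin (k + 1)) : Continuous (fun s => lz φ s i) :=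
  (continuous_apply i).comp (continuous_lz hφ)

lemma continuous_lv_apply (i : Fin (k + 1)) : Continuous (fun s => lv φ s i) :=
  (continuous_apply i).comp (continuous_lv hφ)

lemma continuous_nsq_lz : Continuous (fun s => nsq (lz φ s)) :=
  continuous_nsq.comp (continuous_lz hφ)

lemma continuous_al' : Continuous (al' φ) := by
  unfold al'
  apply Continuous.div
  · apply continuous_finsetSum
    intro l _
    exact (Complex.continuous_conj.comp (continuous_lz_apply hφ l)).mul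
      (continuous_lv_apply hφ l)
  · exact Complex.continuous_ofReal.comp (continuous_nsq_lz hφ)
  · intro s
    exact_mod_cast (nsq_pos φ s).ne'

lemma continuous_lp (i : Fin (k + 1)) : Continuous (fun s => lp φ s i) := by
  unfold lp
  exact (continuous_lv_apply hφ i).sub ((continuous_al' hφ).mul (continuous_lz_apply hφ i))

lemma continuous_dens : Continuous (dens φ) := by
  unfold dens
  apply Continuous.div
  · apply continuous_finsetSum
    intro l _
    exact (continuous_lp hφ l).norm.pow 2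
  · exact continuous_nsq_lz hφ
  · intro s
    exact (nsq_pos φ s).ne'

omit hφ in
lemma dens_nonneg (s : ℂ) : 0 ≤ dens φ s := by
  unfold dens
  have := nsq_pos φ s
  positivity

omit hφ in
/-- The pull back of a form, computed with the projected velocity. -/
lemma pullback_proj (c : (Fin (k + 1) → ℂ) → Fin (k + 1) → Fin (k + 1) → ℂ) (s : ℂ)
    (hl : ∀ j, ∑ i, c (lz φ s) i j * lz φ s i = 0)
    (hr : ∀ i, ∑ j, c (lz φ s) i j * (starRingEnd ℂ) (lz φ s j) = 0) :
    pullback φ c s = ∑ i, ∑ j, c (lz φ s) i j * lp φ s i * (starRingEnd ℂ) (lp φ s j) := by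
  have h0 : pullback φ c s =
      ∑ i, ∑ j, c (lz φ s) i j * lv φ s i * (starRingEnd ℂ) (lv φ s j) := rfl
  have h1 : ∀ i j, c (lz φ s) i j * lv φ s i * (starRingEnd ℂ) (lv φ s j) =
      c (lz φ s) i j * lp φ s i * (starRingEnd ℂ) (lp φ s j) +
      al' φ s * ((c (lz φ s) i j * lz φ s i) * (starRingEnd ℂ) (lv φ s j)) +
      (starRingEnd ℂ) (al' φ s) * (lp φ s i *
        (c (lz φ s) i j * (starRingEnd ℂ) (lz φ s j))) := by
    intro i j
    unfold lp
    simp only [map_sub, map_mul]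
    ring
  rw [h0]
  simp only [h1, Finset.sum_add_distrib]
  have h2 : ∑ i, ∑ j, al' φ s * ((c (lz φ s) i j * lz φ s i) * (starRingEnd ℂ) (lv φ s j)) = 0 := by
    rw [Finset.sum_comm]
    apply Finset.sum_eq_zero
    intro j _
    rw [← Finset.mul_sum, ← Finset.sum_mul, hl]
    simp
  have h3 : ∑ i, ∑ j, (starRingEnd ℂ) (al' φ s) * (lp φ s i *
        (c (lz φ s) i j * (starRingEnd ℂ) (lz φ s j))) = 0 := by
    apply Finset.sum_eq_zero
    intro i _
    rw [← Finset.mul_sum, ← Finset.mul_sum, hr]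
    simp
  rw [h2, h3]
  ring

omit hφ in
lemma sum_conj_lz_lp (s : ℂ) : ∑ i, (starRingEnd ℂ) (lz φ s i) * lp φ s i = 0 := by
  unfold lp
  have h : ∀ i, (starRingEnd ℂ) (lz φ s i) * (lv φ s i - al' φ s * lz φ s i) =
      (starRingEnd ℂ) (lz φ s i) * lv φ s i -
        al' φ s * (lz φ s i * (starRingEnd ℂ) (lz φ s i)) := by
    intro i
    ring
  simp only [h]
  rw [Finset.sum_sub_distrib, ← Finset.mul_sum, ← sum_norm_sq_lz]
  unfold al'
  have : ((nsq (lz φ s) : ℝ) : ℂ) ≠ 0 := by exact_mod_cast (nsq_pos φ s).ne'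
  field_simp
  ring

omit hφ in
lemma pullback_fs (s : ℂ) : pullback φ fubiniStudy s = ((dens φ s : ℝ) : ℂ) := by
  have hN : ((nsq (lz φ s) : ℝ) : ℂ) ≠ 0 := by exact_mod_cast (nsq_pos φ s).ne'
  have hfs : ∀ i j, fubiniStudy (lz φ s) i j =
      ((if i = j then ((nsq (lz φ s) : ℝ) : ℂ) else 0) -
        (starRingEnd ℂ) (lz φ s i) * lz φ s j) / ((nsq (lz φ s) : ℝ) : ℂ) ^ 2 := by
    intro i j
    unfold fubiniStudy nsq
    split_ifs
    · push_cast
      rfl
    · push_cast
      rfl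
  rw [pullback_proj]
  · simp only [hfs]
    have h1 : ∀ i j, ((if i = j then ((nsq (lz φ s) : ℝ) : ℂ) else 0) -
        (starRingEnd ℂ) (lz φ s i) * lz φ s j) / ((nsq (lz φ s) : ℝ) : ℂ) ^ 2 * lp φ s i *
        (starRingEnd ℂ) (lp φ s j) =
        (if i = j then lp φ s i * (starRingEnd ℂ) (lp φ s j) / ((nsq (lz φ s) : ℝ) : ℂ) else 0) -
        ((starRingEnd ℂ) (lz φ s i) * lp φ s i) *
          (lz φ s j * (starRingEnd ℂ) (lp φ s j) / ((nsq (lz φ s) : ℝ) : ℂ) ^ 2) := by
      intro i j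
      split_ifs
      · field_simp
      · ring
    simp only [h1, Finset.sum_sub_distrib, Finset.sum_ite_eq, Finset.mem_univ, if_true]
    have h2 : ∑ i, ∑ j, ((starRingEnd ℂ) (lz φ s i) * lp φ s i) *
          (lz φ s j * (starRingEnd ℂ) (lp φ s j) / ((nsq (lz φ s) : ℝ) : ℂ) ^ 2) = 0 := by
      rw [Finset.sum_comm]
      apply Finset.sum_eq_zero
      intro j _
      rw [← Finset.sum_mul, sum_conj_lz_lp, zero_mul]
    rw [h2, sub_zero]
    unfold dens
    push_cast
    rw [Finset.sum_div]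
    apply Finset.sum_congr rfl
    intro i _
    rw [Complex.mul_conj, Complex.normSq_eq_norm_sq]
    push_cast
    rfl
  · intro j
    simp only [hfs]
    have h1 : ∀ i, ((if i = j then ((nsq (lz φ s) : ℝ) : ℂ) else 0) -
        (starRingEnd ℂ) (lz φ s i) * lz φ s j) / ((nsq (lz φ s) : ℝ) : ℂ) ^ 2 * lz φ s i =
        (if i = j then lz φ s i / ((nsq (lz φ s) : ℝ) : ℂ) else 0) -
        (lz φ s i * (starRingEnd ℂ) (lz φ s i)) * (lz φ s j / ((nsq (lz φ s) : ℝ) : ℂ) ^ 2) := by
      intro i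
      split_ifs
      · field_simp
      · ring
    simp only [h1, Finset.sum_sub_distrib, Finset.sum_ite_eq', Finset.mem_univ, if_true]
    rw [← Finset.sum_mul, ← sum_norm_sq_lz]
    field_simp
    ring
  · intro i
    simp only [hfs]
    have h1 : ∀ j, ((if i = j then ((nsq (lz φ s) : ℝ) : ℂ) else 0) -
        (starRingEnd ℂ) (lz φ s i) * lz φ s j) / ((nsq (lz φ s) : ℝ) : ℂ) ^ 2 *
          (starRingEnd ℂ) (lz φ s j) =
        (if i = j then (starRingEnd ℂ) (lz φ s j) / ((nsq (lz φ s) : ℝ) : ℂ) else 0) -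
        (lz φ s j * (starRingEnd ℂ) (lz φ s j)) *
          ((starRingEnd ℂ) (lz φ s i) / ((nsq (lz φ s) : ℝ) : ℂ) ^ 2) := by
      intro j
      split_ifs
      · field_simp
      · ring
    simp only [h1, Finset.sum_sub_distrib, Finset.sum_ite_eq, Finset.mem_univ, if_true]
    rw [← Finset.sum_mul, ← sum_norm_sq_lz]
    field_simp
    ring

/-- unit vector in the direction of `z` -/
noncomputable def hatz (φ : ℂ → (Fin k → ℂ)) (s : ℂ) : Fin (k + 1) → ℂ :=
  (((Real.sqrt (nsq (lz φ s)))⁻¹ : ℝ) : ℂ) • lz φ s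

omit hφ in
lemma nsq_smul (c : ℂ) (z : Fin (k + 1) → ℂ) : nsq (c • z) = ‖c‖ ^ 2 * nsq z := by
  unfold nsq
  simp only [Pi.smul_apply, smul_eq_mul, norm_mul, mul_pow]
  rw [Finset.mul_sum]

omit hφ in
lemma norm_sq_scale (s : ℂ) :
    ‖(((Real.sqrt (nsq (lz φ s)))⁻¹ : ℝ) : ℂ)‖ ^ 2 = (nsq (lz φ s))⁻¹ := by
  rw [Complex.norm_real, Real.norm_eq_abs, sq_abs, inv_pow, Real.sq_sqrt (nsq_pos φ s).le]

omit hφ in
lemma hatz_mem (s : ℂ) : hatz φ s ∈ sph k := by
  change nsq (hatz φ s) = 1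
  unfold hatz
  rw [nsq_smul, norm_sq_scale, inv_mul_cancel₀ (nsq_pos φ s).ne']

lemma continuous_hatz : Continuous (hatz φ) := by
  have h1 : Continuous (fun s => (((Real.sqrt (nsq (lz φ s)))⁻¹ : ℝ) : ℂ)) := by
    apply Complex.continuous_ofReal.comp
    apply Continuous.inv₀
    · exact Real.continuous_sqrt.comp (continuous_nsq_lz hφ)
    · intro s
      exact (Real.sqrt_pos.2 (nsq_pos φ s)).ne'
  exact h1.smul (continuous_lz hφ)

/-- density of the pull back of a continuous form on the sphere -/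
noncomputable def dPsi (φ : ℂ → (Fin k → ℂ)) (Ψ : C(sph k, Fin (k + 1) → Fin (k + 1) → ℂ))
    (s : ℂ) : ℂ :=
  ∑ i, ∑ j, Ψ ⟨hatz φ s, hatz_mem s⟩ i j * lp φ s i * (starRingEnd ℂ) (lp φ s j) *
    (((nsq (lz φ s))⁻¹ : ℝ) : ℂ)

lemma continuous_dPsi (Ψ : C(sph k, Fin (k + 1) → Fin (k + 1) → ℂ)) :
    Continuous (dPsi φ Ψ) := by
  unfold dPsi
  apply continuous_finsetSum
  intro i _
  apply continuous_finsetSum
  intro j _
  apply Continuous.mul
  · apply Continuous.mul
    · apply Continuous.mul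
      · have h1 : Continuous (fun s => (⟨hatz φ s, hatz_mem s⟩ : sph k)) :=
          (continuous_hatz hφ).subtype_mk _
        exact (continuous_apply j).comp ((continuous_apply i).comp (Ψ.continuous.comp h1))
      · exact continuous_lp hφ i
    · exact Complex.continuous_conj.comp (continuous_lp hφ j)
  · apply Complex.continuous_ofReal.comp
    apply Continuous.inv₀ (continuous_nsq_lz hφ)
    intro s
    exact (nsq_pos φ s).ne'

/-- restriction of a test form to the sphere -/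
noncomputable def resSph (Θ : TestForm k) : C(sph k, Fin (k + 1) → Fin (k + 1) → ℂ) where
  toFun z i j := Θ.coef z.1 i j
  continuous_toFun := by
    rw [continuous_pi_iff]
    intro i
    rw [continuous_pi_iff]
    intro j
    have h := (Θ.smooth i j).continuousOn
    have h2 : ContinuousOn (fun z => Θ.coef z i j) (sph k) := by
      apply h.mono
      intro z hz hz0
      have h3 : nsq z = 1 := hz
      rw [hz0] at h3
      unfold nsq at h3
      simp at h3
    exact continuousOn_iff_continuous_domRestrict.1 h2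

omit hφ in
lemma dPsi_resSph (Θ : TestForm k) (s : ℂ) : dPsi φ (resSph Θ) s = pullback φ Θ.coef s := by
  rw [pullback_proj]
  · unfold dPsi
    apply Finset.sum_congr rfl
    intro i _
    apply Finset.sum_congr rfl
    intro j _
    have hne : (((Real.sqrt (nsq (lz φ s)))⁻¹ : ℝ) : ℂ) ≠ 0 := by
      have := (Real.sqrt_pos.2 (nsq_pos φ s)).ne'
      exact_mod_cast inv_ne_zero this
    have h1 := Θ.homog _ (lz φ s) hne (lz_ne_zero φ s) i j
    rw [norm_sq_scale] at h1
    change Θ.coef (hatz φ s) i j * lp φ s i * (starRingEnd ℂ) (lp φ s j) *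
      (((nsq (lz φ s))⁻¹ : ℝ) : ℂ) = _
    rw [← h1]
    unfold hatz
    ring
  · exact Θ.horiz_left _ (lz_ne_zero φ s)
  · exact Θ.horiz_right _ (lz_ne_zero φ s)

omit hφ in
lemma norm_dPsi_le (Ψ : C(sph k, Fin (k + 1) → Fin (k + 1) → ℂ)) (s : ℂ)
    (hc : CompactSpace (sph k)) :
    ‖dPsi φ Ψ s‖ ≤ ((k + 1 : ℕ) * ‖Ψ‖) * dens φ s := by
  have hN := nsq_pos φ s
  unfold dPsi
  have h1 : ∀ i j, ‖Ψ ⟨hatz φ s, hatz_mem s⟩ i j * lp φ s i * (starRingEnd ℂ) (lp φ s j) *
    (((nsq (lz φ s))⁻¹ : ℝ) : ℂ)‖ ≤ ‖Ψ‖ * (nsq (lz φ s))⁻¹ *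
      ((‖lp φ s i‖ ^ 2 + ‖lp φ s j‖ ^ 2) / 2) := by
    intro i j
    rw [norm_mul, norm_mul, norm_mul, Complex.norm_real, Real.norm_eq_abs,
      abs_of_pos (inv_pos.2 hN), RCLike.norm_conj]
    have h2 : ‖Ψ ⟨hatz φ s, hatz_mem s⟩ i j‖ ≤ ‖Ψ‖ :=
      ((norm_le_pi_norm _ j).trans (norm_le_pi_norm _ i)).trans (Ψ.norm_coe_le_norm _)
    have h3 : ‖lp φ s i‖ * ‖lp φ s j‖ ≤ (‖lp φ s i‖ ^ 2 + ‖lp φ s j‖ ^ 2) / 2 := by
      nlinarith [sq_nonneg (‖lp φ s i‖ - ‖lp φ s j‖)]
    calc ‖Ψ ⟨hatz φ s, hatz_mem s⟩ i j‖ * ‖lp φ s i‖ * ‖lp φ s j‖ * (nsq (lz φ s))⁻¹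
        = (‖Ψ ⟨hatz φ s, hatz_mem s⟩ i j‖ * (nsq (lz φ s))⁻¹) *
            (‖lp φ s i‖ * ‖lp φ s j‖) := by ring
      _ ≤ (‖Ψ‖ * (nsq (lz φ s))⁻¹) * ((‖lp φ s i‖ ^ 2 + ‖lp φ s j‖ ^ 2) / 2) := by
          gcongr
  have h4 : ‖∑ i, ∑ j, Ψ ⟨hatz φ s, hatz_mem s⟩ i j * lp φ s i *
      (starRingEnd ℂ) (lp φ s j) * (((nsq (lz φ s))⁻¹ : ℝ) : ℂ)‖ ≤
      ∑ i, ∑ j, ‖Ψ‖ * (nsq (lz φ s))⁻¹ * ((‖lp φ s i‖ ^ 2 + ‖lp φ s j‖ ^ 2) / 2) := by
    refine (norm_sum_le _ _).trans (Finset.sum_le_sum fun i _ => ?_)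
    exact (norm_sum_le _ _).trans (Finset.sum_le_sum fun j _ => h1 i j)
  refine h4.trans (le_of_eq ?_)
  simp only [← Finset.mul_sum, ← Finset.sum_div, Finset.sum_add_distrib, Finset.sum_const,
    Finset.card_univ, Fintype.card_fin, nsmul_eq_mul]
  unfold dens
  field_simp
  ring

lemma exists_clusterPoint (hT : Tendsto (fun m : ℕ => realNev (dens φ) m) atTop atTop) :
    ∃ τ : TestForm k → ℂ, IsClusterPoint φ τ := by
  have := compactSpace_sph k
  obtain ⟨m₀, hm₀⟩ := (hT.eventually_gt_atTop 0).exists_forall_of_atTop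
  have hpos : ∀ m : ℕ, 0 < realNev (dens φ) ((m + m₀ : ℕ) : ℝ) := fun m => hm₀ _ (by omega)
  have hchar : ∀ r : ℝ, characteristic φ r = ((realNev (dens φ) r : ℝ) : ℂ) := by
    intro r
    unfold characteristic
    rw [← nevanlinnaIntegral_ofReal]
    congr 1
    funext s
    exact pullback_fs s
  let L : ℕ → (C(sph k, Fin (k + 1) → Fin (k + 1) → ℂ) →L[ℂ] ℂ) := fun m =>
    LinearMap.mkContinuous
      { toFun := fun Ψ => nevanlinnaIntegral (dPsi φ Ψ) ((m + m₀ : ℕ) : ℝ) /
          characteristic φ ((m + m₀ : ℕ) : ℝ)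
        map_add' := by
          intro Ψ₁ Ψ₂
          rw [← add_div]
          congr 1
          rw [← nevanlinnaIntegral_add (continuous_dPsi hφ Ψ₁) (continuous_dPsi hφ Ψ₂)
            (by positivity)]
          congr 1
          funext s
          unfold dPsi
          simp only [← Finset.sum_add_distrib]
          apply Finset.sum_congr rfl
          intro i _
          apply Finset.sum_congr rfl
          intro j _
          simp only [ContinuousMap.add_apply, Pi.add_apply]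
          ring
        map_smul' := by
          intro c Ψ
          simp only [RingHom.id_apply, smul_eq_mul]
          rw [← mul_div_assoc, ← nevanlinnaIntegral_const_mul]
          congr 2
          funext s
          unfold dPsi
          simp only [Finset.mul_sum]
          apply Finset.sum_congr rfl
          intro i _
          apply Finset.sum_congr rfl
          intro j _
          simp only [ContinuousMap.smul_apply, Pi.smul_apply, smul_eq_mul]
          ring }
      ((k + 1 : ℕ) : ℝ)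
      (by
        intro Ψ
        change ‖nevanlinnaIntegral (dPsi φ Ψ) ((m + m₀ : ℕ) : ℝ) /
          characteristic φ ((m + m₀ : ℕ) : ℝ)‖ ≤ _
        rw [norm_div, hchar, Complex.norm_real, Real.norm_eq_abs, abs_of_pos (hpos m),
          div_le_iff₀ (hpos m), ← realNev_const_mul]
        apply norm_nevanlinnaIntegral_le
        · exact continuous_const.mul (continuous_dens hφ)
        · intro s
          exact norm_dPsi_le Ψ s inferInstance
        · positivity)
  have hL : ∀ m, ‖L m‖ ≤ ((k + 1 : ℕ) : ℝ) := fun m =>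
    LinearMap.mkContinuous_norm_le _ (by positivity) _
  obtain ⟨ℓ, σ, hσ, hlim⟩ := exists_weak_limit L hL
  refine ⟨fun Θ => ℓ (resSph Θ), fun j => ((σ j + m₀ : ℕ) : ℝ), ?_, ?_⟩
  · apply tendsto_natCast_atTop_atTop.comp
    exact tendsto_atTop_mono (fun j => Nat.le_add_right _ _) hσ.tendsto_atTop
  · intro Θ
    have h1 : Tendsto (fun j => L (σ j) (resSph Θ)) atTop (𝓝 (ℓ (resSph Θ))) := hlim _
    refine h1.congr fun j => ?_
    change nevanlinnaIntegral (dPsi φ (resSph Θ)) ((σ j + m₀ : ℕ) : ℝ) /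
          characteristic φ ((σ j + m₀ : ℕ) : ℝ) = _
    unfold nevanlinnaCurrent
    congr 2
    funext s
    exact dPsi_resSph Θ s

end Curve

end Pool.Agent.MPf94db8
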