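import Pool.Agent.MPf94db8.Laplace

/-!
# The radial functions used in the test form (helper for `MP_f94db8_an`)
-/

open Metric Filter Topology MeasureTheory Complex
open scoped ContDiff

namespace Pool.Agent.MPf94db8

/-- A smooth function on `ℝ`, zero for `ρ ≤ A`, equal to `log (ρ / A)` for `ρ ≥ 2 A`. -/
noncomputable def kk (A ρ : ℝ) : ℝ := Real.smoothTransition (ρ / A - 1) * Real.log (ρ / A)

/-- The coefficient `k' + ρ k''`. -/
noncomputable def aa (A ρ : ℝ) : ℝ := deriv (kk A) ρ + ρ * deriv (deriv (kk A)) ρ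

lemma contDiff_two {E F : Type*} [NormedAddCommGroup E] [NormedSpace ℝ E]
    [NormedAddCommGroup F] [NormedSpace ℝ F] {f : E → F} (h : ContDiff ℝ ∞ f) :
    ContDiff ℝ 2 f := contDiff_infty.1 h 2

variable {A : ℝ} (hA : 1 ≤ A)
include hA

lemma kk_eq_zero {ρ : ℝ} (h : ρ ≤ A) : kk A ρ = 0 := by
  unfold kk
  rw [Real.smoothTransition.zero_of_nonpos, zero_mul]
  have : ρ / A ≤ 1 := (div_le_one (by linarith)).2 h
  linarith

lemma kk_eq_log {ρ : ℝ} (h : 2 * A ≤ ρ) : kk A ρ = Real.log (ρ / A) := by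
  unfold kk
  rw [Real.smoothTransition.one_of_one_le, one_mul]
  have : 2 ≤ ρ / A := (le_div_iff₀ (by linarith)).2 h
  linarith

lemma kk_nonneg (ρ : ℝ) : 0 ≤ kk A ρ := by
  by_cases h : ρ ≤ A
  · rw [kk_eq_zero hA h]
  · unfold kk
    apply mul_nonneg (Real.smoothTransition.nonneg _)
    apply Real.log_nonneg
    rw [le_div_iff₀ (by linarith)]
    linarith

lemma kk_lower {ρ : ℝ} (hρ : 0 ≤ ρ) :
    Real.log (1 + ρ) ≤ kk A ρ + Real.log (1 + 2 * A) := by
  by_cases h : ρ ≤ 2 * A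
  · have h1 := kk_nonneg hA ρ
    have h2 : Real.log (1 + ρ) ≤ Real.log (1 + 2 * A) :=
      Real.log_le_log (by linarith) (by linarith)
    linarith
  · have hA0 : 0 < A := by linarith
    have hρ0 : 0 < ρ := by linarith
    rw [kk_eq_log hA (by linarith), ← Real.log_mul (by positivity) (by positivity)]
    apply Real.log_le_log (by linarith)
    have h3 : ρ / A * (1 + 2 * A) = ρ / A + 2 * ρ := by field_simp
    rw [h3]
    have : 0 < ρ / A := by positivity
    linarith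

lemma contDiff_kk : ContDiff ℝ ∞ (kk A) := by
  rw [contDiff_iff_contDiffAt]
  intro ρ
  by_cases h : 0 < ρ
  · unfold kk
    have hA0 : A ≠ 0 := by linarith
    have h1 : ContDiffAt ℝ ∞ (fun ρ : ℝ => ρ / A) ρ := contDiffAt_id.div_const A
    apply ContDiffAt.mul
    · exact (Real.smoothTransition.contDiffAt).comp ρ (h1.sub contDiffAt_const)
    · exact h1.log (div_ne_zero h.ne' hA0)
  · have : kk A =ᶠ[𝓝 ρ] fun _ => 0 := by
      have hlt : ρ < A := by linarith
      filter_upwards [Iio_mem_nhds hlt] with x hx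
      exact kk_eq_zero hA (le_of_lt hx)
    exact contDiffAt_const.congr_of_eventuallyEq this

lemma contDiff_deriv_kk : ContDiff ℝ ∞ (deriv (kk A)) := by
  have h := contDiff_kk hA
  exact ((contDiff_infty_iff_deriv).1 h).2

lemma contDiff_deriv2_kk : ContDiff ℝ ∞ (deriv (deriv (kk A))) :=
  ((contDiff_infty_iff_deriv).1 (contDiff_deriv_kk hA)).2

lemma contDiff_aa : ContDiff ℝ ∞ (aa A) := by
  unfold aa
  exact (contDiff_deriv_kk hA).add (contDiff_id.mul (contDiff_deriv2_kk hA))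

lemma aa_eq_zero_of_lt {ρ : ℝ} (h : ρ < A) : aa A ρ = 0 := by
  have h1 : kk A =ᶠ[𝓝 ρ] fun _ => 0 := by
    filter_upwards [Iio_mem_nhds h] with x hx
    exact kk_eq_zero hA (le_of_lt hx)
  have h2 : deriv (kk A) =ᶠ[𝓝 ρ] fun _ => 0 := by
    have := h1.deriv
    simpa using this
  have h3 := h2.deriv_eq
  unfold aa
  rw [h2.eq_of_nhds, h3]
  simp

lemma aa_eq_zero_of_gt {ρ : ℝ} (h : 2 * A < ρ) : aa A ρ = 0 := by
  have hA0 : 0 < A := by linarith
  have h1 : kk A =ᶠ[𝓝 ρ] fun x => Real.log (x / A) := by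
    filter_upwards [Ioi_mem_nhds h] with x hx
    exact kk_eq_log hA (le_of_lt hx)
  have hd : ∀ x : ℝ, 0 < x → HasDerivAt (fun x => Real.log (x / A)) (x⁻¹) x := by
    intro x hx
    have h1 := ((hasDerivAt_id x).div_const A).log (by simp; exact ⟨hx.ne', hA0.ne'⟩)
    refine h1.congr_deriv ?_
    simp only [id]
    field_simp
  have h2 : deriv (kk A) =ᶠ[𝓝 ρ] fun x => x⁻¹ := by
    have h4 := h1.deriv
    have h5 : deriv (fun x => Real.log (x / A)) =ᶠ[𝓝 ρ] fun x => x⁻¹ := by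
      filter_upwards [Ioi_mem_nhds h] with x hx
      have hx' : 2 * A < x := hx
      exact (hd x (by linarith)).deriv
    exact h4.trans h5
  have h3 := h2.deriv_eq
  unfold aa
  rw [h2.eq_of_nhds, h3]
  simp only [deriv_inv]
  have : ρ ≠ 0 := by linarith
  field_simp
  ring

lemma aa_support {ρ : ℝ} (h : aa A ρ ≠ 0) : A ≤ ρ ∧ ρ ≤ 2 * A := by
  constructor
  · by_contra hc
    exact h (aa_eq_zero_of_lt hA (not_le.1 hc))
  · by_contra hc
    exact h (aa_eq_zero_of_gt hA (not_le.1 hc))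

omit hA in
lemma normSq_conj_mul (a b : ℂ) :
    ((starRingEnd ℂ) a * b).re ^ 2 + ((starRingEnd ℂ) a * b).im ^ 2 = ‖a‖ ^ 2 * ‖b‖ ^ 2 := by
  rw [← Complex.normSq_eq_norm_sq, ← Complex.normSq_eq_norm_sq, ← Complex.normSq_conj a,
    ← map_mul, Complex.normSq_apply]
  ring

lemma lap_kk {f : ℂ → ℂ} (hf : Differentiable ℂ f) (z : ℂ) :
    lap (fun z => kk A (‖f z‖ ^ 2)) z = 4 * (aa A (‖f z‖ ^ 2) * ‖deriv f z‖ ^ 2) := by
  have hk := contDiff_kk hA
  have h1 := lap_comp (Q := fun z => ‖f z‖ ^ 2) (K := kk A) (K' := deriv (kk A))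
    (K'' := deriv (deriv (kk A))) (contDiff_two (contDiff_norm_sq' hf))
    (fun z => (hk.differentiable (by simp)).differentiableAt.hasDerivAt)
    (fun z => ((contDiff_deriv_kk hA).differentiable (by simp)).differentiableAt.hasDerivAt) z
  rw [h1, lap_norm_sq hf, dx_norm_sq hf, dy_norm_sq hf]
  have h2 := normSq_conj_mul (f z) (deriv f z)
  unfold aa
  linear_combination (4 * deriv (deriv (kk A)) (‖f z‖ ^ 2)) * h2

lemma contDiff_kk_comp {f : ℂ → ℂ} (hf : Differentiable ℂ f) :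
    ContDiff ℝ 2 (fun z => kk A (‖f z‖ ^ 2)) :=
  contDiff_two ((contDiff_kk hA).comp (contDiff_norm_sq' hf))

end Pool.Agent.MPf94db8
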