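import Mathlib

/-!
# Definitions for the hand-in `MP_f94db8_an.NevanlinnaCurrentsNotAtInfinity`

Holomorphic vector fields on `ℂ^k`, their leaves and uniformizations, smooth `(1,1)` test forms on
`ℙ^k`, Nevanlinna characteristic and Nevanlinna currents of an entire curve.
-/

open Metric Filter Topology MeasureTheory
open scoped ContDiff

namespace Pool.Agent.MPf94db8

/-! ## Vector fields and leaves -/

/-- The vector field `Z` on `ℂ^k` is of the form `Z = h P` with `P` a polynomial vector field and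
`h` an entire function. -/
def IsFunctionTimesPolynomial {k : ℕ} (Z : (Fin k → ℂ) → (Fin k → ℂ)) : Prop :=
  ∃ (h : (Fin k → ℂ) → ℂ) (P : Fin k → MvPolynomial (Fin k) ℂ), Differentiable ℂ h ∧
    ∀ (z : Fin k → ℂ) (i : Fin k), Z z i = h z * MvPolynomial.eval z (P i)

/-- The leaf topology of the vector field `Z` on `ℂ^k`: the finest topology for which all
holomorphic integral curves `γ : 𝔻(ε) → ℂ^k`, `γ' = Z(γ)`, are continuous. -/
def leafTopology {k : ℕ} (Z : (Fin k → ℂ) → (Fin k → ℂ)) : TopologicalSpace (Fin k → ℂ) where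
  IsOpen V := ∀ (γ : ℂ → (Fin k → ℂ)) (ε : ℝ), 0 < ε →
    (∀ t ∈ ball (0 : ℂ) ε, HasDerivAt γ (Z (γ t)) t) → γ 0 ∈ V →
    ∃ δ : ℝ, 0 < δ ∧ ∀ t ∈ ball (0 : ℂ) δ, γ t ∈ V
  isOpen_univ := fun _ _ _ _ _ => ⟨1, one_pos, fun _ _ => trivial⟩
  isOpen_inter := by
    intro V W hV hW γ ε hε hγ h0
    obtain ⟨δ₁, h1, h1'⟩ := hV γ ε hε hγ h0.1
    obtain ⟨δ₂, h2, h2'⟩ := hW γ ε hε hγ h0.2
    exact ⟨min δ₁ δ₂, lt_min h1 h2, fun t ht =>
      ⟨h1' t (ball_subset_ball (min_le_left _ _) ht),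
        h2' t (ball_subset_ball (min_le_right _ _) ht)⟩⟩
  isOpen_sUnion := by
    intro S hS γ ε hε hγ h0
    obtain ⟨V, hV, h0V⟩ := h0
    obtain ⟨δ, h1, h1'⟩ := hS V hV γ ε hε hγ h0V
    exact ⟨δ, h1, fun t ht => ⟨V, hV, h1' t ht⟩⟩

/-- `L` is a leaf of `Z`: a maximal connected integral curve away from the zeros of `Z`, that is,
the connected component, for the leaf topology, of a point where `Z` does not vanish. -/
def IsLeaf {k : ℕ} (Z : (Fin k → ℂ) → (Fin k → ℂ)) (L : Set (Fin k → ℂ)) : Prop :=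
  ∃ p : Fin k → ℂ, Z p ≠ 0 ∧ L = @connectedComponent _ (leafTopology Z) p

/-- `φ : ℂ → L` is a uniformization of the leaf `L` of `Z`: it is holomorphic and it is a covering
map onto `L`, where `L` carries the leaf topology. (It is the universal covering because `ℂ` is
simply connected.) -/
def IsUniformization {k : ℕ} (Z : (Fin k → ℂ) → (Fin k → ℂ)) (L : Set (Fin k → ℂ))
    (φ : ℂ → (Fin k → ℂ)) : Prop :=
  Differentiable ℂ φ ∧ ∃ hφ : ∀ ζ, φ ζ ∈ L,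
    Function.Surjective (fun ζ => (⟨φ ζ, hφ ζ⟩ : L)) ∧
    @IsCoveringMap ℂ L _ (@instTopologicalSpaceSubtype _ _ (leafTopology Z))
      (fun ζ => (⟨φ ζ, hφ ζ⟩ : L))

/-- An algebraic subset of `ℂ^k` of dimension at most one, i.e. an algebraic curve, possibly
together with isolated points: the common zero set of an ideal `I` such that the ring of
polynomials modulo `I` has Krull dimension at most `1`. -/
def IsAlgebraicCurve {k : ℕ} (A : Set (Fin k → ℂ)) : Prop :=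
  ∃ I : Ideal (MvPolynomial (Fin k) ℂ), ringKrullDim (MvPolynomial (Fin k) ℂ ⧸ I) ≤ 1 ∧
    A = {z | ∀ P ∈ I, MvPolynomial.eval z P = 0}

/-! ## Test forms on `ℙ^k`, Nevanlinna characteristic and Nevanlinna currents -/

/-- A smooth (complex valued) `(1,1)`-form on `ℙ^k`, given by its pull back
`(i/2) ∑ coef_{ij} dz_i ∧ dz̄_j` to `ℂ^{k+1} ∖ {0}`: the coefficients are smooth, the form is
invariant under the action of `ℂ^*` and vanishes in the direction of the fibres of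
`ℂ^{k+1} ∖ {0} → ℙ^k`. -/
structure TestForm (k : ℕ) where
  /-- the coefficients -/
  coef : (Fin (k + 1) → ℂ) → Fin (k + 1) → Fin (k + 1) → ℂ
  /-- smoothness -/
  smooth : ∀ i j, ContDiffOn ℝ ∞ (fun z => coef z i j) {z | z ≠ 0}
  /-- invariance under homotheties -/
  homog : ∀ (c : ℂ) (z : Fin (k + 1) → ℂ), c ≠ 0 → z ≠ 0 → ∀ i j,
    (‖c‖ ^ 2 : ℝ) * coef (c • z) i j = coef z i j
  /-- the form is horizontal (first slot) -/
  horiz_left : ∀ z : Fin (k + 1) → ℂ, z ≠ 0 → ∀ j, ∑ i, coef z i j * z i = 0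
  /-- the form is horizontal (second slot) -/
  horiz_right : ∀ z : Fin (k + 1) → ℂ, z ≠ 0 → ∀ i, ∑ j, coef z i j * (starRingEnd ℂ) (z j) = 0

/-- The coefficients of the Fubini-Study form: `(i/2) ∂∂̄ log |z|²` on `ℂ^{k+1} ∖ {0}`. -/
noncomputable def fubiniStudy {k : ℕ} (z : Fin (k + 1) → ℂ) (i j : Fin (k + 1)) : ℂ :=
  ((if i = j then (∑ l, ‖z l‖ ^ 2 : ℝ) else 0) - (starRingEnd ℂ) (z i) * z j) /
    ((∑ l, ‖z l‖ ^ 2 : ℝ) ^ 2 : ℝ)

/-- The density, with respect to Lebesgue measure on `ℂ`, of the pull back by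
`φ : ℂ → ℂ^k ⊂ ℙ^k` of the form with coefficients `c`; here `φ` is lifted to
`ζ ↦ (1, φ(ζ)) ∈ ℂ^{k+1}`. -/
noncomputable def pullback {k : ℕ} (φ : ℂ → (Fin k → ℂ))
    (c : (Fin (k + 1) → ℂ) → Fin (k + 1) → Fin (k + 1) → ℂ) (ζ : ℂ) : ℂ :=
  ∑ i, ∑ j, c (Fin.cons 1 (φ ζ)) i j * (Fin.cons 0 (deriv φ ζ) : Fin (k + 1) → ℂ) i *
    (starRingEnd ℂ) ((Fin.cons 0 (deriv φ ζ) : Fin (k + 1) → ℂ) j)

/-- `∫_0^r dt/t ∫_{𝔻(t)} d`, for a density `d` on `ℂ`. -/
noncomputable def nevanlinnaIntegral (d : ℂ → ℂ) (r : ℝ) : ℂ :=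
  ∫ t in (0 : ℝ)..r, (1 / t : ℝ) • ∫ ζ in ball (0 : ℂ) t, d ζ

/-- The Nevanlinna characteristic `T(r) = ∫_0^r dt/t ∫_{𝔻(t)} φ^* ω`. -/
noncomputable def characteristic {k : ℕ} (φ : ℂ → (Fin k → ℂ)) (r : ℝ) : ℂ :=
  nevanlinnaIntegral (pullback φ fubiniStudy) r

/-- The Nevanlinna current `τ_r^φ = T(r)⁻¹ ∫_0^r dt/t φ_*[𝔻(t)]` evaluated at a test form. -/
noncomputable def nevanlinnaCurrent {k : ℕ} (φ : ℂ → (Fin k → ℂ)) (r : ℝ) (Θ : TestForm k) : ℂ :=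
  nevanlinnaIntegral (pullback φ Θ.coef) r / characteristic φ r

/-- `τ` is a cluster point of the currents `τ_r^φ`: a weak limit along a sequence `r_n → ∞`. -/
def IsClusterPoint {k : ℕ} (φ : ℂ → (Fin k → ℂ)) (τ : TestForm k → ℂ) : Prop :=
  ∃ r : ℕ → ℝ, Tendsto r atTop atTop ∧
    ∀ Θ : TestForm k, Tendsto (fun n => nevanlinnaCurrent φ (r n) Θ) atTop (𝓝 (τ Θ))

/-- The current `τ` is supported in the hyperplane at infinity `H_∞ = {z_0 = 0}`: it vanishes on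
every test form which vanishes in a neighbourhood of `H_∞`. -/
def SupportedAtInfinity {k : ℕ} (τ : TestForm k → ℂ) : Prop :=
  ∀ Θ : TestForm k, (∃ δ : ℝ, 0 < δ ∧ ∀ z : Fin (k + 1) → ℂ, z ≠ 0 → ‖z 0‖ < δ * ‖z‖ →
    ∀ i j, Θ.coef z i j = 0) → τ Θ = 0

end Pool.Agent.MPf94db8
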