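import Mathlib

/-!
# Laurent splitting of `a(t) e(1/t)` for entire functions (helper for `MP_f94db8_an`)
-/

open Metric Filter Topology Complex

namespace Pool.Agent.MPf94db8

/-- Taylor coefficients at the origin. -/
noncomputable def tcoef (f : ℂ → ℂ) (n : ℕ) : ℂ := ((Nat.factorial n : ℕ) : ℂ)⁻¹ * iteratedDeriv n f 0

lemma hasSum_tcoef {f : ℂ → ℂ} (hf : Differentiable ℂ f) (z : ℂ) :
    HasSum (fun n : ℕ => tcoef f n * z ^ n) (f z) := by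
  have h := Complex.hasSum_taylorSeries_of_entire hf 0 z
  have e : (fun n : ℕ => ((Nat.factorial n : ℕ) : ℂ)⁻¹ • (z - 0) ^ n • iteratedDeriv n f 0) =
      fun n : ℕ => tcoef f n * z ^ n := by
    funext n
    simp only [tcoef, smul_eq_mul, sub_zero]
    ring
  rwa [e] at h

lemma summable_tcoef {f : ℂ → ℂ} (hf : Differentiable ℂ f) (z : ℂ) :
    Summable (fun n : ℕ => ‖tcoef f n * z ^ n‖) :=
  (hasSum_tcoef hf z).summable.norm

lemma tcoef_bound {f : ℂ → ℂ} (hf : Differentiable ℂ f) {ρ : ℝ} (hρ : 0 ≤ ρ) :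
    ∃ B : ℝ, 0 ≤ B ∧ ∀ n : ℕ, ‖tcoef f n‖ * ρ ^ n ≤ B * (1 / 2) ^ n := by
  have h := summable_tcoef hf ((2 * ρ : ℝ) : ℂ)
  refine ⟨∑' n : ℕ, ‖tcoef f n * ((2 * ρ : ℝ) : ℂ) ^ n‖, tsum_nonneg fun _ => norm_nonneg _, ?_⟩
  intro n
  have h1 : ‖tcoef f n * ((2 * ρ : ℝ) : ℂ) ^ n‖ ≤
      ∑' n : ℕ, ‖tcoef f n * ((2 * ρ : ℝ) : ℂ) ^ n‖ :=
    h.le_tsum n (fun _ _ => norm_nonneg _)
  have h2 : ‖tcoef f n * ((2 * ρ : ℝ) : ℂ) ^ n‖ = ‖tcoef f n‖ * (2 * ρ) ^ n := by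
    rw [norm_mul, norm_pow, Complex.norm_real, Real.norm_of_nonneg (by positivity)]
  have h3 : ‖tcoef f n‖ * ρ ^ n = ‖tcoef f n‖ * (2 * ρ) ^ n * (1 / 2) ^ n := by
    rw [mul_assoc, ← mul_pow]
    congr 2
    ring
  rw [h3, ← h2]
  gcongr

/-- The regular part. -/
noncomputable def regPart (a e : ℂ → ℂ) (t : ℂ) : ℂ :=
  ∑' q : ℕ × ℕ, tcoef a (q.2 + q.1) * tcoef e q.1 * t ^ q.2

/-- The principal part. -/
noncomputable def prinPart (a e : ℂ → ℂ) (y : ℂ) : ℂ :=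
  ∑' q : ℕ × ℕ, tcoef a q.1 * tcoef e (q.1 + q.2 + 1) * y ^ (q.2 + 1)

lemma differentiable_regPart {a e : ℂ → ℂ} (ha : Differentiable ℂ a) (he : Differentiable ℂ e) :
    Differentiable ℂ (regPart a e) := by
  intro z
  obtain ⟨ρ, hρ1, hρ⟩ : ∃ ρ : ℝ, 1 ≤ ρ ∧ z ∈ ball (0 : ℂ) ρ :=
    ⟨1 + ‖z‖, by linarith [norm_nonneg z], by rw [mem_ball_zero_iff]; linarith⟩
  have hρ0 : 0 ≤ ρ := by linarith
  obtain ⟨B, hB, hBn⟩ := tcoef_bound ha hρ0
  have hs : Summable (fun q : ℕ × ℕ => ‖tcoef e q.1 * 1 ^ q.1‖ * (B * (1 / 2 : ℝ) ^ q.2)) := by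
    refine Summable.mul_of_nonneg (summable_tcoef he 1)
      (Summable.mul_left B (summable_geometric_of_lt_one (by norm_num) (by norm_num)))
      (fun _ => norm_nonneg _) (fun _ => by positivity)
  have h := differentiableOn_tsum_of_summable_norm (U := ball (0 : ℂ) ρ)
    (F := fun (q : ℕ × ℕ) (t : ℂ) => tcoef a (q.2 + q.1) * tcoef e q.1 * t ^ q.2) hs
    (fun q => by fun_prop) isOpen_ball (by
      intro q w hw
      rw [mem_ball_zero_iff] at hw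
      rw [one_pow, mul_one, norm_mul, norm_mul, norm_pow]
      have h1 : ‖w‖ ^ q.2 ≤ ρ ^ (q.2 + q.1) :=
        (pow_le_pow_left₀ (norm_nonneg _) hw.le _).trans
          (pow_le_pow_right₀ hρ1 (Nat.le_add_right _ _))
      have h2 := hBn (q.2 + q.1)
      have h3 : (1 / 2 : ℝ) ^ (q.2 + q.1) ≤ (1 / 2) ^ q.2 :=
        pow_le_pow_of_le_one (by norm_num) (by norm_num) (Nat.le_add_right _ _)
      calc ‖tcoef a (q.2 + q.1)‖ * ‖tcoef e q.1‖ * ‖w‖ ^ q.2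
          = ‖tcoef e q.1‖ * (‖tcoef a (q.2 + q.1)‖ * ‖w‖ ^ q.2) := by ring
        _ ≤ ‖tcoef e q.1‖ * (‖tcoef a (q.2 + q.1)‖ * ρ ^ (q.2 + q.1)) := by gcongr
        _ ≤ ‖tcoef e q.1‖ * (B * (1 / 2) ^ (q.2 + q.1)) := by gcongr
        _ ≤ ‖tcoef e q.1‖ * (B * (1 / 2) ^ q.2) := by gcongr)
  exact (h z hρ).differentiableAt (isOpen_ball.mem_nhds hρ)

lemma differentiable_prinPart {a e : ℂ → ℂ} (ha : Differentiable ℂ a)
    (he : Differentiable ℂ e) : Differentiable ℂ (prinPart a e) := by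
  intro z
  obtain ⟨ρ, hρ1, hρ⟩ : ∃ ρ : ℝ, 1 ≤ ρ ∧ z ∈ ball (0 : ℂ) ρ :=
    ⟨1 + ‖z‖, by linarith [norm_nonneg z], by rw [mem_ball_zero_iff]; linarith⟩
  have hρ0 : 0 ≤ ρ := by linarith
  obtain ⟨B, hB, hBn⟩ := tcoef_bound he hρ0
  have hs : Summable (fun q : ℕ × ℕ => ‖tcoef a q.1 * 1 ^ q.1‖ * (B * (1 / 2 : ℝ) ^ q.2)) := by
    refine Summable.mul_of_nonneg (summable_tcoef ha 1)
      (Summable.mul_left B (summable_geometric_of_lt_one (by norm_num) (by norm_num)))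
      (fun _ => norm_nonneg _) (fun _ => by positivity)
  have h := differentiableOn_tsum_of_summable_norm (U := ball (0 : ℂ) ρ)
    (F := fun (q : ℕ × ℕ) (t : ℂ) => tcoef a q.1 * tcoef e (q.1 + q.2 + 1) * t ^ (q.2 + 1)) hs
    (fun q => by fun_prop) isOpen_ball (by
      intro q w hw
      rw [mem_ball_zero_iff] at hw
      rw [one_pow, mul_one, norm_mul, norm_mul, norm_pow]
      have h1 : ‖w‖ ^ (q.2 + 1) ≤ ρ ^ (q.1 + q.2 + 1) :=
        (pow_le_pow_left₀ (norm_nonneg _) hw.le _).trans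
          (pow_le_pow_right₀ hρ1 (by omega))
      have h2 := hBn (q.1 + q.2 + 1)
      have h3 : (1 / 2 : ℝ) ^ (q.1 + q.2 + 1) ≤ (1 / 2) ^ q.2 :=
        pow_le_pow_of_le_one (by norm_num) (by norm_num) (by omega)
      calc ‖tcoef a q.1‖ * ‖tcoef e (q.1 + q.2 + 1)‖ * ‖w‖ ^ (q.2 + 1)
          = ‖tcoef a q.1‖ * (‖tcoef e (q.1 + q.2 + 1)‖ * ‖w‖ ^ (q.2 + 1)) := by ring
        _ ≤ ‖tcoef a q.1‖ * (‖tcoef e (q.1 + q.2 + 1)‖ * ρ ^ (q.1 + q.2 + 1)) := by gcongr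
        _ ≤ ‖tcoef a q.1‖ * (B * (1 / 2) ^ (q.1 + q.2 + 1)) := by gcongr
        _ ≤ ‖tcoef a q.1‖ * (B * (1 / 2) ^ q.2) := by gcongr)
  exact (h z hρ).differentiableAt (isOpen_ball.mem_nhds hρ)

/-- reindexing of the pairs `(k,n)` with `n ≤ k` -/
def equivReg : ℕ × ℕ ≃ {q : ℕ × ℕ | q.2 ≤ q.1} where
  toFun q := ⟨(q.2 + q.1, q.1), by simp⟩
  invFun q := (q.1.2, q.1.1 - q.1.2)
  left_inv q := by simp
  right_inv := by
    rintro ⟨⟨k, n⟩, h⟩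
    simp only [Set.mem_ofPred_eq] at h
    simp only [Subtype.mk.injEq, Prod.mk.injEq, and_true]
    omega

/-- reindexing of the pairs `(k,n)` with `k < n` -/
def equivPrin : ℕ × ℕ ≃ ({q : ℕ × ℕ | q.2 ≤ q.1}ᶜ : Set (ℕ × ℕ)) where
  toFun q := ⟨(q.1, q.1 + q.2 + 1), by simp⟩
  invFun q := (q.1.1, q.1.2 - q.1.1 - 1)
  left_inv q := by
    obtain ⟨k, j⟩ := q
    simp only [Prod.mk.injEq, true_and]
    omega
  right_inv := by
    rintro ⟨⟨k, n⟩, h⟩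
    simp only [Set.mem_compl_iff, Set.mem_ofPred_eq, not_le] at h
    simp only [Subtype.mk.injEq, Prod.mk.injEq, true_and]
    omega

/-- Laurent splitting of `a(t) e(1/t)`. -/
theorem laurent_split {a e : ℂ → ℂ} (ha : Differentiable ℂ a) (he : Differentiable ℂ e) {t : ℂ}
    (ht : t ≠ 0) : a t * e (1 / t) = regPart a e t + prinPart a e (1 / t) := by
  have hsa := summable_tcoef ha t
  have hse := summable_tcoef he (1 / t)
  rw [← (hasSum_tcoef ha t).tsum_eq, ← (hasSum_tcoef he (1 / t)).tsum_eq,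
    tsum_mul_tsum_of_summable_norm hsa hse]
  have hs := summable_mul_of_summable_norm hsa hse
  set f : ℕ × ℕ → ℂ := fun z => tcoef a z.1 * t ^ z.1 * (tcoef e z.2 * (1 / t) ^ z.2) with hf
  have h1 : (∑' x : {q : ℕ × ℕ | q.2 ≤ q.1}, f x) +
      ∑' x : ({q : ℕ × ℕ | q.2 ≤ q.1}ᶜ : Set (ℕ × ℕ)), f x = ∑' x, f x :=
    (hs.subtype _).tsum_add_tsum_compl (hs.subtype _)
  rw [← h1, ← Equiv.tsum_eq equivReg, ← Equiv.tsum_eq equivPrin]
  congr 1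
  · unfold regPart
    refine tsum_congr fun q => ?_
    simp only [hf, equivReg, Equiv.coe_fn_mk]
    rw [pow_add, one_div, inv_pow]
    field_simp
  · unfold prinPart
    refine tsum_congr fun q => ?_
    simp only [hf, equivPrin, Equiv.coe_fn_mk]
    rw [one_div, inv_pow, inv_pow, show q.1 + q.2 + 1 = q.1 + (q.2 + 1) by ring, pow_add]
    field_simp

end Pool.Agent.MPf94db8
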