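import Pool.Agent.MPf94db8.Defs
import Pool.Agent.MPf94db8.Laurent

/-!
# The vector field, its leaf and the uniformization (helper for `MP_f94db8_an`)
-/

open Metric Filter Topology Complex

namespace Pool.Agent.MPf94db8

/-- `exp ∘ exp` -/
noncomputable def EE (y : ℂ) : ℂ := exp (exp y)

/-- the regular part of `e^t E(1/t)` -/
noncomputable def FF : ℂ → ℂ := regPart exp EE

/-- the principal part of `e^t E(1/t)` -/
noncomputable def GG : ℂ → ℂ := prinPart exp EE

lemma differentiable_EE : Differentiable ℂ EE := by unfold EE; fun_prop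

lemma differentiable_FF : Differentiable ℂ FF :=
  differentiable_regPart Complex.differentiable_exp differentiable_EE

lemma differentiable_GG : Differentiable ℂ GG :=
  differentiable_prinPart Complex.differentiable_exp differentiable_EE

lemma split {t : ℂ} (ht : t ≠ 0) : exp t * EE (1 / t) = FF t + GG (1 / t) :=
  laurent_split Complex.differentiable_exp differentiable_EE ht

/-- coefficient -/
noncomputable def al (y : ℂ) : ℂ := 1 - y ^ 2 * exp y

/-- coefficient -/
noncomputable def be (y : ℂ) : ℂ := al y * GG y + y ^ 2 * deriv GG y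

lemma differentiable_al : Differentiable ℂ al := by unfold al; fun_prop

lemma differentiable_deriv_GG : Differentiable ℂ (deriv GG) := by
  intro z
  exact ((differentiable_GG.analyticAt z).deriv).differentiableAt

lemma differentiable_be : Differentiable ℂ be := by
  have h1 := differentiable_al
  have h2 := differentiable_GG
  have h3 := differentiable_deriv_GG
  unfold be
  fun_prop

variable {n : ℕ}

/-- The vector field. -/
noncomputable def vf (n : ℕ) (z : Fin (n + 2) → ℂ) (i : Fin (n + 2)) : ℂ :=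
  if i = 0 then al (z 1) * z 0 + be (z 1) else if i = 1 then -(z 1) ^ 2 else 0

lemma vf_zero (z : Fin (n + 2) → ℂ) : vf n z 0 = al (z 1) * z 0 + be (z 1) := by simp [vf]

lemma vf_one (z : Fin (n + 2) → ℂ) : vf n z 1 = -(z 1) ^ 2 := by simp [vf]

lemma vf_other (z : Fin (n + 2) → ℂ) {i : Fin (n + 2)} (h0 : i ≠ 0) (h1 : i ≠ 1) :
    vf n z i = 0 := by simp [vf, h0, h1]

lemma differentiable_vf : Differentiable ℂ (vf n) := by
  rw [differentiable_pi]
  intro i
  by_cases h0 : i = 0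
  · subst h0
    simp only [vf_zero]
    have h1 := differentiable_al
    have h2 := differentiable_be
    fun_prop
  · by_cases h1 : i = 1
    · subst h1
      simp only [vf_one]
      fun_prop
    · simp only [vf_other _ h0 h1]
      fun_prop

/-- The curve `t ↦ (F(t), 1/t, 0, …, 0)`. -/
noncomputable def psi (n : ℕ) (t : ℂ) (i : Fin (n + 2)) : ℂ :=
  if i = 0 then FF t else if i = 1 then 1 / t else 0

lemma psi_zero (t : ℂ) : psi n t 0 = FF t := by simp [psi]
lemma psi_one (t : ℂ) : psi n t 1 = 1 / t := by simp [psi]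
lemma psi_other (t : ℂ) {i : Fin (n + 2)} (h0 : i ≠ 0) (h1 : i ≠ 1) : psi n t i = 0 := by
  simp [psi, h0, h1]

lemma hasDerivAt_inv' {t : ℂ} (ht : t ≠ 0) : HasDerivAt (fun t : ℂ => 1 / t) (-(1 / t) ^ 2) t := by
  have := hasDerivAt_inv ht
  simp only [one_div]
  refine this.congr_deriv ?_
  rw [inv_pow]

lemma hasDerivAt_FF {t : ℂ} (ht : t ≠ 0) :
    HasDerivAt FF (al (1 / t) * FF t + be (1 / t)) t := by
  have hinv := hasDerivAt_inv' ht
  have h1 : HasDerivAt (fun t : ℂ => exp t * EE (1 / t) - GG (1 / t))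
      (al (1 / t) * FF t + be (1 / t)) t := by
    have hE : HasDerivAt EE (exp (exp (1 / t)) * exp (1 / t)) (1 / t) :=
      (Complex.hasDerivAt_exp (1 / t)).cexp
    have hE' := hE.comp t hinv
    have hG : HasDerivAt GG (deriv GG (1 / t)) (1 / t) := (differentiable_GG _).hasDerivAt
    have hG' := hG.comp t hinv
    have h := ((Complex.hasDerivAt_exp t).mul hE').sub hG'
    refine h.congr_deriv ?_
    have hs : FF t = exp t * EE (1 / t) - GG (1 / t) := by rw [split ht]; ring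
    simp only [Function.comp_apply]
    rw [hs]
    unfold be al EE
    ring
  refine h1.congr_of_eventuallyEq ?_
  have : ∀ᶠ s in 𝓝 t, s ≠ 0 := isOpen_ne.mem_nhds ht
  filter_upwards [this] with s hs
  rw [split hs]; ring

lemma hasDerivAt_psi {t : ℂ} (ht : t ≠ 0) : HasDerivAt (psi n) (vf n (psi n t)) t := by
  rw [hasDerivAt_pi]
  intro i
  by_cases h0 : i = 0
  · subst h0
    simp only [vf_zero, psi_zero, psi_one]
    exact hasDerivAt_FF ht
  · by_cases h1 : i = 1
    · subst h1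
      simp only [vf_one, psi_one]
      exact hasDerivAt_inv' ht
    · simp only [vf_other _ h0 h1, psi_other _ h0 h1]
      exact hasDerivAt_const _ _

/-- The leaf. -/
noncomputable def leafSet (n : ℕ) : Set (Fin (n + 2) → ℂ) := psi n '' {t | t ≠ 0}

/-- first integral -/
noncomputable def inv1 (z : Fin (n + 2) → ℂ) : ℂ :=
  (z 0 + GG (z 1)) * exp (-(1 / z 1) - exp (z 1))

lemma inv1_psi {t : ℂ} (ht : t ≠ 0) : inv1 (psi n t) = 1 := by
  unfold inv1
  rw [psi_zero, psi_one, ← split ht]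
  unfold EE
  rw [← Complex.exp_add, ← Complex.exp_add, one_div_one_div]
  rw [show t + exp (1 / t) + (-t - exp (1 / t)) = 0 by ring, Complex.exp_zero]

lemma mem_leafSet_iff (z : Fin (n + 2) → ℂ) : z ∈ leafSet n ↔
    z 1 ≠ 0 ∧ inv1 z = 1 ∧ ∀ i, i ≠ 0 → i ≠ 1 → z i = 0 := by
  constructor
  · rintro ⟨t, ht, rfl⟩
    refine ⟨?_, inv1_psi ht, fun i h0 h1 => psi_other t h0 h1⟩
    rw [psi_one]
    exact one_div_ne_zero ht
  · rintro ⟨h1, h2, h3⟩
    refine ⟨1 / z 1, one_div_ne_zero h1, ?_⟩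
    funext i
    by_cases hi0 : i = 0
    · subst hi0
      rw [psi_zero]
      have ht : (1 / z 1) ≠ 0 := one_div_ne_zero h1
      have hs := split ht
      rw [one_div_one_div] at hs
      have h4 : z 0 + GG (z 1) = exp (1 / z 1 + exp (z 1)) := by
        have h5 : (z 0 + GG (z 1)) * exp (-(1 / z 1) - exp (z 1)) *
            exp (1 / z 1 + exp (z 1)) = exp (1 / z 1 + exp (z 1)) := by
          unfold inv1 at h2
          rw [h2, one_mul]
        rw [mul_assoc, ← Complex.exp_add,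
          show -(1 / z 1) - exp (z 1) + (1 / z 1 + exp (z 1)) = 0 by ring, Complex.exp_zero,
          mul_one] at h5
        exact h5
      unfold EE at hs
      rw [← Complex.exp_add, ← h4] at hs
      linear_combination -hs
    · by_cases hi1 : i = 1
      · subst hi1
        rw [psi_one, one_div_one_div]
      · rw [psi_other _ hi0 hi1, h3 i hi0 hi1]

/-! ## Invariance of the leaf under integral curves -/

section Curves

lemma const_on_ball {f : ℂ → ℂ} {ε : ℝ} (hf : ∀ t ∈ ball (0 : ℂ) ε, HasDerivAt f 0 t)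
    {t : ℂ} (ht : t ∈ ball (0 : ℂ) ε) (h0 : (0 : ℂ) ∈ ball (0 : ℂ) ε) : f t = f 0 :=
  isOpen_ball.is_const_of_deriv_eq_zero (convex_ball (0 : ℂ) ε).isPreconnected
    (fun s hs => (hf s hs).differentiableAt.differentiableWithinAt)
    (fun s hs => (hf s hs).deriv) ht h0

variable {γ : ℂ → (Fin (n + 2) → ℂ)} {ε : ℝ}

lemma curve_other (hε : 0 < ε) (hγ : ∀ t ∈ ball (0 : ℂ) ε, HasDerivAt γ (vf n (γ t)) t)
    {i : Fin (n + 2)} (h0 : i ≠ 0) (h1 : i ≠ 1) {t : ℂ} (ht : t ∈ ball (0 : ℂ) ε) :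
    γ t i = γ 0 i := by
  refine const_on_ball (f := fun t => γ t i) (fun s hs => ?_) ht (mem_ball_self hε)
  have := hasDerivAt_pi.1 (hγ s hs) i
  rwa [vf_other _ h0 h1] at this

/-- the `y` coordinate of an integral curve is a constant times a nowhere zero function -/
lemma curve_one (hε : 0 < ε) (hγ : ∀ t ∈ ball (0 : ℂ) ε, HasDerivAt γ (vf n (γ t)) t) :
    ∃ Y : ℂ → ℂ, ∀ t ∈ ball (0 : ℂ) ε, γ t 1 * exp (Y t) = γ 0 1 * exp (Y 0) := by
  have hy : ∀ t ∈ ball (0 : ℂ) ε, HasDerivAt (fun t => γ t 1) (-(γ t 1) ^ 2) t := by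
    intro t ht
    have := hasDerivAt_pi.1 (hγ t ht) 1
    rwa [vf_one] at this
  have hd : DifferentiableOn ℂ (fun t => γ t 1) (ball (0 : ℂ) ε) :=
    fun t ht => (hy t ht).differentiableAt.differentiableWithinAt
  obtain ⟨Y, hY⟩ := hd.isExactOn_ball
  refine ⟨Y, fun t ht => ?_⟩
  refine const_on_ball (f := fun t => γ t 1 * exp (Y t)) (fun s hs => ?_) ht (mem_ball_self hε)
  refine ((hy s hs).mul (hY s hs).cexp).congr_deriv ?_
  ring

lemma curve_one_ne (hε : 0 < ε) (hγ : ∀ t ∈ ball (0 : ℂ) ε, HasDerivAt γ (vf n (γ t)) t)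
    {t : ℂ} (ht : t ∈ ball (0 : ℂ) ε) : γ t 1 = 0 ↔ γ 0 1 = 0 := by
  obtain ⟨Y, hY⟩ := curve_one hε hγ
  have h := hY t ht
  constructor
  · intro h1
    rw [h1, zero_mul] at h
    exact (mul_eq_zero.1 h.symm).resolve_right (Complex.exp_ne_zero _)
  · intro h1
    rw [h1, zero_mul] at h
    exact (mul_eq_zero.1 h).resolve_right (Complex.exp_ne_zero _)

lemma curve_inv1 (hε : 0 < ε) (hγ : ∀ t ∈ ball (0 : ℂ) ε, HasDerivAt γ (vf n (γ t)) t)
    (h0 : γ 0 1 ≠ 0) {t : ℂ} (ht : t ∈ ball (0 : ℂ) ε) : inv1 (γ t) = inv1 (γ 0) := by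
  refine const_on_ball (f := fun t => inv1 (γ t)) (fun s hs => ?_) ht (mem_ball_self hε)
  have hne : γ s 1 ≠ 0 := fun h => h0 ((curve_one_ne hε hγ hs).1 h)
  have hx : HasDerivAt (fun t => γ t 0) (al (γ s 1) * γ s 0 + be (γ s 1)) s := by
    have := hasDerivAt_pi.1 (hγ s hs) 0
    rwa [vf_zero] at this
  have hy : HasDerivAt (fun t => γ t 1) (-(γ s 1) ^ 2) s := by
    have := hasDerivAt_pi.1 (hγ s hs) 1
    rwa [vf_one] at this
  have hG : HasDerivAt (fun t => GG (γ t 1)) (deriv GG (γ s 1) * (-(γ s 1) ^ 2)) s :=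
    ((differentiable_GG (γ s 1)).hasDerivAt).comp s hy
  have hi : HasDerivAt (fun t => 1 / γ t 1) (-(1 / γ s 1) ^ 2 * (-(γ s 1) ^ 2)) s :=
    (hasDerivAt_inv' hne).comp s hy
  have hE := (hi.neg.sub hy.cexp).cexp
  have h := (hx.add hG).mul hE
  refine h.congr_deriv ?_
  simp only [Pi.add_apply, Pi.sub_apply, Pi.neg_apply]
  unfold be al
  field_simp
  ring

lemma curve_mem (hε : 0 < ε) (hγ : ∀ t ∈ ball (0 : ℂ) ε, HasDerivAt γ (vf n (γ t)) t)
    {t : ℂ} (ht : t ∈ ball (0 : ℂ) ε) : γ t ∈ leafSet n ↔ γ 0 ∈ leafSet n := by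
  rw [mem_leafSet_iff, mem_leafSet_iff]
  have h1 := curve_one_ne hε hγ ht
  constructor
  · rintro ⟨a, b, c⟩
    have a' : γ 0 1 ≠ 0 := fun h => a (h1.2 h)
    exact ⟨a', by rw [← curve_inv1 hε hγ a' ht]; exact b,
      fun i hi0 hi1 => by rw [← curve_other hε hγ hi0 hi1 ht]; exact c i hi0 hi1⟩
  · rintro ⟨a, b, c⟩
    exact ⟨fun h => a (h1.1 h), by rw [curve_inv1 hε hγ a ht]; exact b,
      fun i hi0 hi1 => by rw [curve_other hε hγ hi0 hi1 ht]; exact c i hi0 hi1⟩

end Curves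

/-! ## The leaf topology -/

/-- The space `ℂ^(n+2)` with the leaf topology. -/
def LS (n : ℕ) : Type := Fin (n + 2) → ℂ

noncomputable instance (n : ℕ) : TopologicalSpace (LS n) := leafTopology (vf n)

/-- the leaf as a subset of `LS` -/
def leafLS (n : ℕ) : Set (LS n) := leafSet n

/-- `psi` as a map into `LS` -/
noncomputable def psiLS (n : ℕ) (t : ℂ) : LS n := psi n t

/-- The uniformization. -/
noncomputable def phi (n : ℕ) (s : ℂ) : Fin (n + 2) → ℂ := psi n (exp s)

/-- `phi` as a map into `LS` -/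
noncomputable def phiLS (n : ℕ) (s : ℂ) : LS n := phi n s

lemma isOpen_LS {V : Set (LS n)} : IsOpen V ↔ ∀ (γ : ℂ → (Fin (n + 2) → ℂ)) (ε : ℝ), 0 < ε →
    (∀ t ∈ ball (0 : ℂ) ε, HasDerivAt γ (vf n (γ t)) t) → γ 0 ∈ V →
    ∃ δ : ℝ, 0 < δ ∧ ∀ t ∈ ball (0 : ℂ) δ, γ t ∈ V := Iff.rfl

lemma isOpen_leafSet : IsOpen (leafLS n) := by
  rw [isOpen_LS]
  intro γ ε hε hγ h0
  exact ⟨ε, hε, fun t ht => (curve_mem hε hγ ht).2 h0⟩

lemma isClosed_leafSet : IsClosed (leafLS n) := by
  rw [← isOpen_compl_iff, isOpen_LS]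
  intro γ ε hε hγ h0
  exact ⟨ε, hε, fun t ht h => h0 ((curve_mem hε hγ ht).1 h)⟩

lemma isOpen_preimage_psi {V : Set (LS n)} (hV : IsOpen V) :
    IsOpen {t : ℂ | t ≠ 0 ∧ psiLS n t ∈ V} := by
  rw [Metric.isOpen_iff]
  rintro t₀ ⟨ht₀, hV₀⟩
  have hn : 0 < ‖t₀‖ := norm_pos_iff.2 ht₀
  have hne : ∀ τ ∈ ball (0 : ℂ) ‖t₀‖, t₀ + τ ≠ 0 := by
    intro τ hτ h
    rw [mem_ball_zero_iff] at hτ
    have : τ = -t₀ := by linear_combination h
    rw [this, norm_neg] at hτ
    exact lt_irrefl _ hτ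
  obtain ⟨δ, hδ, hδV⟩ := isOpen_LS.1 hV (fun τ => psi n (t₀ + τ)) ‖t₀‖ hn
    (fun τ hτ => by
      have h1 := hasDerivAt_psi (n := n) (hne τ hτ)
      exact h1.comp_const_add t₀ τ) (by rw [add_zero]; exact hV₀)
  refine ⟨min δ ‖t₀‖, lt_min hδ hn, fun t ht => ?_⟩
  rw [mem_ball, dist_eq_norm] at ht
  have e : t₀ + (t - t₀) = t := by ring
  constructor
  · have h1 := hne (t - t₀) (by rw [mem_ball_zero_iff]; exact ht.trans_le (min_le_right _ _))
    rwa [e] at h1
  · have h1 := hδV (t - t₀) (by rw [mem_ball_zero_iff]; exact ht.trans_le (min_le_left _ _))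
    simp only [e] at h1
    exact h1

lemma isOpen_image_psi {W : Set ℂ} (hW : IsOpen W) (hW0 : ∀ t ∈ W, t ≠ 0) :
    IsOpen (psiLS n '' W) := by
  rw [isOpen_LS]
  rintro γ ε hε hγ ⟨t₀, ht₀, h0⟩
  have h0' : psi n t₀ = γ 0 := h0
  have hmem0 : γ 0 ∈ leafSet n := ⟨t₀, hW0 t₀ ht₀, h0⟩
  have hy0 : γ 0 1 ≠ 0 := ((mem_leafSet_iff _).1 hmem0).1
  have ht0 : 1 / γ 0 1 = t₀ := by rw [← h0', psi_one, one_div_one_div]
  have hc : ContinuousAt (fun t => 1 / γ t 1) 0 := by
    have h1 : ContinuousAt (fun t => γ t 1) 0 :=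
      (hasDerivAt_pi.1 (hγ 0 (mem_ball_self hε)) 1).continuousAt
    exact continuousAt_const.div h1 hy0
  have hnb : ∀ᶠ t in 𝓝 (0 : ℂ), 1 / γ t 1 ∈ W := by
    apply hc.eventually_mem
    rw [ht0]
    exact hW.mem_nhds ht₀
  obtain ⟨δ, hδ, hδW⟩ := Metric.eventually_nhds_iff_ball.1 hnb
  refine ⟨min δ ε, lt_min hδ hε, fun t ht => ?_⟩
  have h1 := hδW t (ball_subset_ball (min_le_left _ _) ht)
  have h2 : γ t ∈ leafSet n :=
    (curve_mem hε hγ (ball_subset_ball (min_le_right _ _) ht)).2 hmem0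
  obtain ⟨s, hs, hs'⟩ := h2
  have h3 : 1 / γ t 1 = s := by rw [← hs', psi_one, one_div_one_div]
  rw [h3] at h1
  exact ⟨s, h1, hs'⟩

/-- The parametrization of the leaf by `ℂ^*`. -/
noncomputable def psiEquiv (n : ℕ) : {z : ℂ // z ≠ 0} ≃ leafLS n where
  toFun t := ⟨psiLS n t.1, t.1, t.2, rfl⟩
  invFun z := ⟨1 / (z.1 : Fin (n + 2) → ℂ) 1, one_div_ne_zero ((mem_leafSet_iff _).1 z.2).1⟩
  left_inv t := by
    apply Subtype.ext
    change 1 / psi n t.1 1 = t.1
    rw [psi_one, one_div_one_div]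
  right_inv z := by
    obtain ⟨_, t, ht, rfl⟩ := z
    apply Subtype.ext
    change psi n (1 / psi n t 1) = psi n t
    rw [psi_one, one_div_one_div]

/-- The parametrization of the leaf by `ℂ^*` is a homeomorphism for the leaf topology. -/
noncomputable def psiHomeo (n : ℕ) : {z : ℂ // z ≠ 0} ≃ₜ leafLS n :=
  (psiEquiv n).toHomeomorphOfContinuousOpen
    (by
      refine Continuous.subtype_mk (f := fun t : {z : ℂ // z ≠ 0} => psiLS n t.1) ?_ _
      rw [continuous_def]
      intro V hV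
      have h := (isOpen_preimage_psi hV).preimage
        (continuous_subtype_val : Continuous (Subtype.val : {z : ℂ // z ≠ 0} → ℂ))
      have e : (fun t : {z : ℂ // z ≠ 0} => psiLS n t.1) ⁻¹' V =
          Subtype.val ⁻¹' {t : ℂ | t ≠ 0 ∧ psiLS n t ∈ V} := by
        ext t
        exact ⟨fun h => ⟨t.2, h⟩, fun h => h.2⟩
      rw [e]
      exact h)
    (by
      intro W hW
      obtain ⟨W', hW', rfl⟩ := isOpen_induced_iff.1 hW
      have h1 : IsOpen (W' ∩ {t | t ≠ 0}) := hW'.inter isOpen_ne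
      have h2 := isOpen_image_psi (n := n) h1 (fun t ht => ht.2)
      refine isOpen_induced_iff.2 ⟨_, h2, ?_⟩
      ext z
      constructor
      · rintro ⟨t, ⟨ht, ht0⟩, hz⟩
        exact ⟨⟨t, ht0⟩, ht, Subtype.ext hz⟩
      · rintro ⟨t, ht, rfl⟩
        exact ⟨t.1, ⟨ht, t.2⟩, rfl⟩)

lemma phi_mem (s : ℂ) : phi n s ∈ leafSet n := ⟨exp s, Complex.exp_ne_zero s, rfl⟩

lemma phiLS_mem (s : ℂ) : phiLS n s ∈ leafLS n := phi_mem s

lemma isCoveringMap_phi :
    IsCoveringMap (fun s => (⟨phiLS n s, phiLS_mem s⟩ : leafLS n)) :=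
  Complex.isCoveringMap_exp.homeomorph_comp (psiHomeo n)

lemma surjective_phi :
    Function.Surjective (fun s => (⟨phiLS n s, phiLS_mem s⟩ : leafLS n)) := by
  rintro ⟨_, t, ht, rfl⟩
  refine ⟨Complex.log t, ?_⟩
  apply Subtype.ext
  change psi n (exp (Complex.log t)) = psi n t
  rw [Complex.exp_log ht]

lemma hasDerivAt_phi (s : ℂ) : HasDerivAt (phi n) (exp s • vf n (phi n s)) s := by
  have h1 := (hasDerivAt_psi (n := n) (Complex.exp_ne_zero s)).scomp s (Complex.hasDerivAt_exp s)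
  exact h1

lemma differentiable_phi : Differentiable ℂ (phi n) :=
  fun s => (hasDerivAt_phi s).differentiableAt

theorem isUniformization_phi : IsUniformization (vf n) (leafSet n) (phi n) :=
  ⟨differentiable_phi, phi_mem, surjective_phi, isCoveringMap_phi⟩

theorem isLeaf_leafSet : IsLeaf (vf n) (leafSet n) := by
  refine ⟨phi n 0, ?_, ?_⟩
  · intro h
    have := congrFun h 1
    rw [vf_one] at this
    simp only [phi, psi_one, Pi.zero_apply] at this
    have h2 := Complex.exp_ne_zero (0 : ℂ)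
    simp at this
  · have key : leafLS n = connectedComponent (phiLS n 0) := by
      apply Set.Subset.antisymm
      · have hc : Continuous (fun s => phiLS n s) :=
          continuous_subtype_val.comp (isCoveringMap_phi (n := n)).continuous
        have hpre : IsPreconnected (leafLS n) := by
          have : leafLS n = Set.range (fun s => phiLS n s) := by
            ext z
            constructor
            · intro hz
              obtain ⟨s, hs⟩ := surjective_phi (n := n) ⟨z, hz⟩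
              exact ⟨s, congrArg Subtype.val hs⟩
            · rintro ⟨s, rfl⟩
              exact phiLS_mem s
          rw [this]
          exact isPreconnected_range hc
        exact hpre.subset_connectedComponent (phiLS_mem 0)
      · exact IsClopen.connectedComponent_subset ⟨isClosed_leafSet, isOpen_leafSet⟩ (phiLS_mem 0)
    exact key

end Pool.Agent.MPf94db8
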