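import Pool.Agent.MPf94db8.Growth
import Pool.Agent.MPf94db8.Leaf

/-!
# The test form (helper for `MP_f94db8_an`)
-/

open Metric Filter Topology MeasureTheory Complex
open scoped ContDiff

namespace Pool.Agent.MPf94db8

section General

variable {k : ℕ}

/-- The coefficients of `d(z_i / z_0)`. -/
noncomputable def ww (i : Fin (k + 1)) (z : Fin (k + 1) → ℂ) (m : Fin (k + 1)) : ℂ :=
  ((if m = i then z 0 else 0) - (if m = 0 then z i else 0)) * ((z 0) ^ 2)⁻¹

/-- The quotient `|z_0|² / |z|²`. -/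
noncomputable def ratio (z : Fin (k + 1) → ℂ) : ℝ := ‖z 0‖ ^ 2 * (∑ l, ‖z l‖ ^ 2)⁻¹

/-- The cut off function. -/
noncomputable def chi (A : ℝ) (z : Fin (k + 1) → ℂ) : ℝ :=
  Real.smoothTransition (2 * (2 * A + 2) * ratio z - 1)

/-- One half of the coefficients of the test form. -/
noncomputable def half (a : ℝ → ℝ) (i : Fin (k + 1)) (z : Fin (k + 1) → ℂ)
    (l m : Fin (k + 1)) : ℂ :=
  ((a (‖z i * (z 0)⁻¹‖ ^ 2) : ℝ) : ℂ) * (ww i z l * (starRingEnd ℂ) (ww i z m))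

lemma sum_norm_sq_pos {z : Fin (k + 1) → ℂ} (hz : z ≠ 0) : 0 < ∑ l, ‖z l‖ ^ 2 := by
  obtain ⟨l, hl⟩ := Function.ne_iff.1 hz
  have h1 : 0 < ‖z l‖ ^ 2 := by
    have : z l ≠ 0 := hl
    positivity
  exact h1.trans_le (Finset.single_le_sum (f := fun l => ‖z l‖ ^ 2)
    (fun _ _ => by positivity) (Finset.mem_univ l))

lemma sum_ww_mul (i : Fin (k + 1)) (z : Fin (k + 1) → ℂ) : ∑ m, ww i z m * z m = 0 := by
  unfold ww
  have h : ∀ m, ((if m = i then z 0 else 0) - (if m = 0 then z i else 0)) * ((z 0) ^ 2)⁻¹ * z m =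
      (if m = i then z 0 * ((z 0) ^ 2)⁻¹ * z m else 0) -
        (if m = 0 then z i * ((z 0) ^ 2)⁻¹ * z m else 0) := by
    intro m
    split_ifs <;> ring
  simp only [h]
  rw [Finset.sum_sub_distrib, Finset.sum_ite_eq' Finset.univ i, Finset.sum_ite_eq' Finset.univ 0]
  simp only [Finset.mem_univ, if_true]
  ring

lemma ww_smul {c : ℂ} (hc : c ≠ 0) (i : Fin (k + 1)) (z : Fin (k + 1) → ℂ) (m : Fin (k + 1)) :
    ww i (c • z) m = c⁻¹ * ww i z m := by
  unfold ww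
  simp only [Pi.smul_apply, smul_eq_mul]
  have h1 : (if m = i then c * z 0 else 0) - (if m = 0 then c * z i else 0) =
      c * ((if m = i then z 0 else 0) - (if m = 0 then z i else 0)) := by
    split_ifs <;> ring
  rw [mul_pow, mul_inv, h1]
  generalize (if m = i then z 0 else 0) - (if m = 0 then z i else 0) = x
  generalize (z 0 ^ 2)⁻¹ = y
  field_simp

lemma ratio_smul {c : ℂ} (hc : c ≠ 0) (z : Fin (k + 1) → ℂ) : ratio (c • z) = ratio z := by
  unfold ratio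
  simp only [Pi.smul_apply, smul_eq_mul, norm_mul, mul_pow]
  rw [← Finset.mul_sum, mul_inv]
  have : ‖c‖ ^ 2 ≠ 0 := by positivity
  field_simp

lemma half_smul {c : ℂ} (hc : c ≠ 0) (a : ℝ → ℝ) (i : Fin (k + 1)) (z : Fin (k + 1) → ℂ)
    (l m : Fin (k + 1)) : ((‖c‖ ^ 2 : ℝ) : ℂ) * half a i (c • z) l m = half a i z l m := by
  unfold half
  rw [ww_smul hc, ww_smul hc, map_mul]
  have h1 : (c • z) i * ((c • z) 0)⁻¹ = z i * (z 0)⁻¹ := by
    simp only [Pi.smul_apply, smul_eq_mul]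
    rw [mul_inv]
    field_simp
  have h2 : ((‖c‖ ^ 2 : ℝ) : ℂ) = c * (starRingEnd ℂ) c := by
    rw [Complex.mul_conj, Complex.normSq_eq_norm_sq]
  have h3 : (starRingEnd ℂ) c ≠ 0 := by
    intro h
    exact hc (by simpa using h)
  rw [h1, h2, map_inv₀]
  field_simp

lemma contDiffAt_coord (i : Fin (k + 1)) (z : Fin (k + 1) → ℂ) :
    ContDiffAt ℝ ∞ (fun z : Fin (k + 1) → ℂ => z i) z :=
  (contDiff_apply ℝ ℂ i).contDiffAt

lemma contDiffAt_ratio {z : Fin (k + 1) → ℂ} (hz : z ≠ 0) :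
    ContDiffAt ℝ ∞ (ratio : (Fin (k + 1) → ℂ) → ℝ) z := by
  unfold ratio
  apply ContDiffAt.mul
  · exact (contDiffAt_coord 0 z).norm_sq ℝ
  · apply ContDiffAt.inv
    · apply ContDiffAt.sum
      intro l _
      exact (contDiffAt_coord l z).norm_sq ℝ
    · exact (sum_norm_sq_pos hz).ne'

lemma contDiffAt_ww {z : Fin (k + 1) → ℂ} (hz : z 0 ≠ 0) (i m : Fin (k + 1)) :
    ContDiffAt ℝ ∞ (fun z : Fin (k + 1) → ℂ => ww i z m) z := by
  unfold ww
  apply ContDiffAt.mul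
  · apply ContDiffAt.sub
    · split_ifs
      · exact contDiffAt_coord 0 z
      · exact contDiffAt_const
    · split_ifs
      · exact contDiffAt_coord i z
      · exact contDiffAt_const
  · have h1 : ContDiffAt ℝ ∞ (fun z : Fin (k + 1) → ℂ => z 0 ^ 2) z :=
      (contDiffAt_coord 0 z).pow 2
    exact (contDiffAt_inv ℝ (pow_ne_zero 2 hz)).comp z h1

lemma contDiffAt_half {z : Fin (k + 1) → ℂ} (hz : z 0 ≠ 0) {a : ℝ → ℝ} (ha : ContDiff ℝ ∞ a)
    (i l m : Fin (k + 1)) :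
    ContDiffAt ℝ ∞ (fun z : Fin (k + 1) → ℂ => half a i z l m) z := by
  unfold half
  apply ContDiffAt.mul
  · have h1 : ContDiffAt ℝ ∞ (fun z : Fin (k + 1) → ℂ => z i * (z 0)⁻¹) z :=
      (contDiffAt_coord i z).mul ((contDiffAt_inv ℝ hz).comp z (contDiffAt_coord 0 z))
    have h2 := ha.contDiffAt.comp z (h1.norm_sq ℝ)
    exact Complex.ofRealCLM.contDiff.contDiffAt.comp z h2
  · apply ContDiffAt.mul (contDiffAt_ww hz i l)
    exact (Complex.conjCLE.contDiff.contDiffAt (n := ∞)).comp z (contDiffAt_ww hz i m)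

lemma chi_eq_zero {A : ℝ} (hA : 1 ≤ A) {z : Fin (k + 1) → ℂ}
    (h : ratio z ≤ 1 / (2 * (2 * A + 2))) : chi A z = 0 := by
  unfold chi
  apply Real.smoothTransition.zero_of_nonpos
  rw [le_div_iff₀ (by linarith)] at h
  linarith

/-- The test form. -/
noncomputable def theta {A : ℝ} (hA : 1 ≤ A) (i j : Fin (k + 1)) : TestForm k where
  coef z l m := ((chi A z : ℝ) : ℂ) * (half (aa A) i z l m + half (aa 1) j z l m)
  smooth := by
    intro l m z hz
    apply ContDiffAt.contDiffWithinAt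
    by_cases h0 : z 0 = 0
    · have hr : ratio z = 0 := by
        unfold ratio
        rw [h0]
        simp
      have hc : ContinuousAt (ratio : (Fin (k + 1) → ℂ) → ℝ) z :=
        (contDiffAt_ratio hz).continuousAt
      have hlt : ratio z < 1 / (2 * (2 * A + 2)) := by
        rw [hr]
        have : 0 < 2 * (2 * A + 2) := by linarith
        positivity
      have : (fun z : Fin (k + 1) → ℂ =>
          ((chi A z : ℝ) : ℂ) * (half (aa A) i z l m + half (aa 1) j z l m)) =ᶠ[𝓝 z]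
          fun _ => 0 := by
        filter_upwards [hc.eventually_lt continuousAt_const hlt] with w hw
        rw [chi_eq_zero hA hw.le]
        simp
      exact contDiffAt_const.congr_of_eventuallyEq this
    · apply ContDiffAt.mul
      · have h1 : ContDiffAt ℝ ∞ (fun z : Fin (k + 1) → ℂ => 2 * (2 * A + 2) * ratio z - 1) z :=
          (contDiffAt_const.mul (contDiffAt_ratio hz)).sub contDiffAt_const
        have h2 : ContDiffAt ℝ ∞ (fun z : Fin (k + 1) → ℂ => chi A z) z :=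
          (Real.smoothTransition.contDiffAt).comp z h1
        exact Complex.ofRealCLM.contDiff.contDiffAt.comp z h2
      · exact (contDiffAt_half h0 (contDiff_aa hA) i l m).add
          (contDiffAt_half h0 (contDiff_aa le_rfl) j l m)
  homog := by
    intro c z hc hz l m
    have h1 := half_smul hc (aa A) i z l m
    have h2 := half_smul hc (aa 1) j z l m
    have h3 : chi A (c • z) = chi A z := by
      unfold chi
      rw [ratio_smul hc]
    simp only [h3]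
    rw [← h1, ← h2]
    ring
  horiz_left := by
    intro z hz m
    have h1 := sum_ww_mul i z
    have h2 := sum_ww_mul j z
    unfold half
    have h : ∀ l, ((chi A z : ℝ) : ℂ) *
        (((aa A (‖z i * (z 0)⁻¹‖ ^ 2) : ℝ) : ℂ) * (ww i z l * (starRingEnd ℂ) (ww i z m)) +
        ((aa 1 (‖z j * (z 0)⁻¹‖ ^ 2) : ℝ) : ℂ) * (ww j z l * (starRingEnd ℂ) (ww j z m))) * z l =
        ((chi A z : ℝ) : ℂ) * ((aa A (‖z i * (z 0)⁻¹‖ ^ 2) : ℝ) : ℂ) *
          (starRingEnd ℂ) (ww i z m) * (ww i z l * z l) +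
        ((chi A z : ℝ) : ℂ) * ((aa 1 (‖z j * (z 0)⁻¹‖ ^ 2) : ℝ) : ℂ) *
          (starRingEnd ℂ) (ww j z m) * (ww j z l * z l) := by
      intro l
      ring
    simp only [h]
    rw [Finset.sum_add_distrib, ← Finset.mul_sum, ← Finset.mul_sum, h1, h2]
    simp
  horiz_right := by
    intro z hz l
    have h1 := congrArg (starRingEnd ℂ) (sum_ww_mul i z)
    have h2 := congrArg (starRingEnd ℂ) (sum_ww_mul j z)
    simp only [map_sum, map_mul, map_zero] at h1 h2
    unfold half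
    have h : ∀ m, ((chi A z : ℝ) : ℂ) *
        (((aa A (‖z i * (z 0)⁻¹‖ ^ 2) : ℝ) : ℂ) * (ww i z l * (starRingEnd ℂ) (ww i z m)) +
        ((aa 1 (‖z j * (z 0)⁻¹‖ ^ 2) : ℝ) : ℂ) * (ww j z l * (starRingEnd ℂ) (ww j z m))) *
          (starRingEnd ℂ) (z m) =
        ((chi A z : ℝ) : ℂ) * ((aa A (‖z i * (z 0)⁻¹‖ ^ 2) : ℝ) : ℂ) *
          (ww i z l) * ((starRingEnd ℂ) (ww i z m) * (starRingEnd ℂ) (z m)) +
        ((chi A z : ℝ) : ℂ) * ((aa 1 (‖z j * (z 0)⁻¹‖ ^ 2) : ℝ) : ℂ) *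
          (ww j z l) * ((starRingEnd ℂ) (ww j z m) * (starRingEnd ℂ) (z m)) := by
      intro m
      ring
    simp only [h]
    rw [Finset.sum_add_distrib, ← Finset.mul_sum, ← Finset.mul_sum, h1, h2]
    simp

lemma theta_vanish {A : ℝ} (hA : 1 ≤ A) (i j : Fin (k + 1)) :
    ∃ δ : ℝ, 0 < δ ∧ ∀ z : Fin (k + 1) → ℂ, z ≠ 0 → ‖z 0‖ < δ * ‖z‖ →
      ∀ l m, (theta hA i j).coef z l m = 0 := by
  have hB : 0 < 2 * (2 * A + 2) := by linarith
  refine ⟨Real.sqrt (1 / (2 * (2 * A + 2))), by positivity, ?_⟩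
  intro z hz h l m
  have h1 : ratio z ≤ 1 / (2 * (2 * A + 2)) := by
    unfold ratio
    have hs := sum_norm_sq_pos hz
    rw [← div_eq_mul_inv, div_le_iff₀ hs]
    have h2 : ‖z 0‖ ^ 2 ≤ (Real.sqrt (1 / (2 * (2 * A + 2))) * ‖z‖) ^ 2 :=
      pow_le_pow_left₀ (norm_nonneg _) h.le 2
    rw [mul_pow, Real.sq_sqrt (by positivity)] at h2
    refine h2.trans ?_
    apply mul_le_mul_of_nonneg_left _ (by positivity)
    obtain ⟨l, hl⟩ : ∃ l, ‖z‖ = ‖z l‖ := by
      obtain ⟨l, -, hl⟩ := Finset.exists_mem_eq_sup' (Finset.univ_nonempty) (fun l => ‖z l‖₊)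
      refine ⟨l, ?_⟩
      rw [Pi.norm_def, ← Finset.sup'_eq_sup Finset.univ_nonempty, hl]
      rfl
    rw [hl]
    exact Finset.single_le_sum (f := fun l => ‖z l‖ ^ 2)
      (fun _ _ => by positivity) (Finset.mem_univ l)
  change ((chi A z : ℝ) : ℂ) * (half (aa A) i z l m + half (aa 1) j z l m) = 0
  rw [chi_eq_zero hA h1]
  simp

end General

section Curve

variable {n : ℕ}

/-- first component -/
noncomputable def ff (s : ℂ) : ℂ := FF (exp s)

/-- second component -/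
noncomputable def gg (s : ℂ) : ℂ := 1 / exp s

lemma differentiable_ff : Differentiable ℂ ff :=
  differentiable_FF.comp Complex.differentiable_exp

lemma differentiable_gg : Differentiable ℂ gg := by
  intro s
  exact (differentiableAt_const _).div Complex.differentiable_exp.differentiableAt
    (Complex.exp_ne_zero s)

lemma phi_zero (s : ℂ) : phi n s 0 = ff s := by unfold phi; rw [psi_zero]; rfl
lemma phi_one (s : ℂ) : phi n s 1 = gg s := by unfold phi; rw [psi_one]; rfl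
lemma phi_other (s : ℂ) {i : Fin (n + 2)} (h0 : i ≠ 0) (h1 : i ≠ 1) : phi n s i = 0 := by
  unfold phi; rw [psi_other _ h0 h1]

lemma deriv_phi_apply (s : ℂ) (i : Fin (n + 2)) :
    deriv (phi n) s i = deriv (fun s => phi n s i) s := by
  have h := (differentiable_phi (n := n) s).hasDerivAt
  rw [hasDerivAt_pi] at h
  exact (h i).deriv.symm

lemma deriv_phi_zero (s : ℂ) : deriv (phi n) s 0 = deriv ff s := by
  rw [deriv_phi_apply]
  simp only [phi_zero]

lemma deriv_phi_one (s : ℂ) : deriv (phi n) s 1 = deriv gg s := by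
  rw [deriv_phi_apply]
  simp only [phi_one]

lemma deriv_phi_other (s : ℂ) {i : Fin (n + 2)} (h0 : i ≠ 0) (h1 : i ≠ 1) :
    deriv (phi n) s i = 0 := by
  rw [deriv_phi_apply]
  simp only [phi_other _ h0 h1, deriv_const]

/-- lifted point -/
noncomputable def pz (n : ℕ) (s : ℂ) : Fin (n + 3) → ℂ := Fin.cons 1 (phi n s)

/-- lifted velocity -/
noncomputable def pv (n : ℕ) (s : ℂ) : Fin (n + 3) → ℂ := Fin.cons 0 (deriv (phi n) s)

lemma pz_zero (s : ℂ) : pz n s 0 = 1 := rfl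
lemma pz_one (s : ℂ) : pz n s 1 = ff s := by
  have : pz n s 1 = phi n s 0 := rfl
  rw [this, phi_zero]
lemma pz_two (s : ℂ) : pz n s 2 = gg s := by
  have : pz n s 2 = phi n s 1 := rfl
  rw [this, phi_one]
lemma pv_zero (s : ℂ) : pv n s 0 = 0 := rfl
lemma pv_one (s : ℂ) : pv n s 1 = deriv ff s := by
  have : pv n s 1 = deriv (phi n) s 0 := rfl
  rw [this, deriv_phi_zero]
lemma pv_two (s : ℂ) : pv n s 2 = deriv gg s := by
  have : pv n s 2 = deriv (phi n) s 1 := rfl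
  rw [this, deriv_phi_one]

lemma pv_other (s : ℂ) {i : Fin (n + 3)} (h1 : i ≠ 1) (h2 : i ≠ 2) : pv n s i = 0 := by
  rcases Fin.eq_zero_or_eq_succ i with rfl | ⟨j, rfl⟩
  · rfl
  · change deriv (phi n) s j = 0
    apply deriv_phi_other
    · rintro rfl
      exact h1 rfl
    · rintro rfl
      exact h2 rfl

lemma one_ne_two' : (1 : Fin (n + 3)) ≠ 2 := by
  intro h
  have := congrArg Fin.val h
  simp at this
  rw [Nat.mod_eq_of_lt (by omega)] at this
  omega

lemma sum_pz (s : ℂ) : ∑ l, ‖pz n s l‖ ^ 2 = 1 + (‖ff s‖ ^ 2 + ‖gg s‖ ^ 2) := by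
  rw [Fin.sum_univ_succ, pz_zero]
  have h : ∀ l : Fin (n + 2), pz n s l.succ = phi n s l := fun l => rfl
  simp only [h]
  rw [Fintype.sum_eq_add (0 : Fin (n + 2)) 1 (by simp), phi_zero, phi_one]
  · simp
  · rintro x ⟨h0, h1⟩
    rw [phi_other _ h0 h1]
    simp

lemma pullback_eq (c : (Fin (n + 3) → ℂ) → Fin (n + 3) → Fin (n + 3) → ℂ) (s : ℂ) :
    pullback (phi n) c s =
      (c (pz n s) 1 1 * deriv ff s * (starRingEnd ℂ) (deriv ff s) +
        c (pz n s) 1 2 * deriv ff s * (starRingEnd ℂ) (deriv gg s)) +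
      (c (pz n s) 2 1 * deriv gg s * (starRingEnd ℂ) (deriv ff s) +
        c (pz n s) 2 2 * deriv gg s * (starRingEnd ℂ) (deriv gg s)) := by
  have h0 : pullback (phi n) c s =
      ∑ i, ∑ j, c (pz n s) i j * pv n s i * (starRingEnd ℂ) (pv n s j) := rfl
  have h1 : ∀ i, ∑ j, c (pz n s) i j * pv n s i * (starRingEnd ℂ) (pv n s j) =
      c (pz n s) i 1 * pv n s i * (starRingEnd ℂ) (pv n s 1) +
      c (pz n s) i 2 * pv n s i * (starRingEnd ℂ) (pv n s 2) := by
    intro i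
    apply Fintype.sum_eq_add _ _ one_ne_two'
    rintro x ⟨hx1, hx2⟩
    rw [pv_other s hx1 hx2]
    simp
  rw [h0]
  simp only [h1]
  rw [Fintype.sum_eq_add _ _ one_ne_two', pv_one, pv_two]
  rintro x ⟨hx1, hx2⟩
  rw [pv_other s hx1 hx2]
  simp

lemma pullback_fubiniStudy (s : ℂ) :
    pullback (phi n) fubiniStudy s = ((lap (uFS ff gg) s / 4 : ℝ) : ℂ) := by
  rw [pullback_eq, lap_uFS differentiable_ff differentiable_gg]
  unfold fubiniStudy
  rw [sum_pz, pz_one, pz_two, if_pos rfl, if_pos rfl, if_neg one_ne_two', if_neg one_ne_two'.symm]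
  set N : ℝ := 1 + (‖ff s‖ ^ 2 + ‖gg s‖ ^ 2) with hN
  have hN0 : (N : ℂ) ≠ 0 := by
    have : N ≠ 0 := by positivity
    exact_mod_cast this
  have e1 : ((‖deriv ff s‖ ^ 2 : ℝ) : ℂ) = deriv ff s * (starRingEnd ℂ) (deriv ff s) := by
    rw [Complex.mul_conj, Complex.normSq_eq_norm_sq]
  have e2 : ((‖deriv gg s‖ ^ 2 : ℝ) : ℂ) = deriv gg s * (starRingEnd ℂ) (deriv gg s) := by
    rw [Complex.mul_conj, Complex.normSq_eq_norm_sq]
  have e3 : ((‖(starRingEnd ℂ) (ff s) * deriv ff s +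
      (starRingEnd ℂ) (gg s) * deriv gg s‖ ^ 2 : ℝ) : ℂ) =
      ((starRingEnd ℂ) (ff s) * deriv ff s + (starRingEnd ℂ) (gg s) * deriv gg s) *
      (ff s * (starRingEnd ℂ) (deriv ff s) + gg s * (starRingEnd ℂ) (deriv gg s)) := by
    rw [← Complex.normSq_eq_norm_sq, ← Complex.mul_conj]
    simp only [map_add, map_mul, Complex.conj_conj]
  have e4 : ((4 * ((‖deriv ff s‖ ^ 2 + ‖deriv gg s‖ ^ 2) / N -
      ‖(starRingEnd ℂ) (ff s) * deriv ff s + (starRingEnd ℂ) (gg s) * deriv gg s‖ ^ 2 /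
        N ^ 2) / 4 : ℝ) : ℂ) =
      (((‖deriv ff s‖ ^ 2 : ℝ) : ℂ) + ((‖deriv gg s‖ ^ 2 : ℝ) : ℂ)) / N -
      ((‖(starRingEnd ℂ) (ff s) * deriv ff s +
      (starRingEnd ℂ) (gg s) * deriv gg s‖ ^ 2 : ℝ) : ℂ) / N ^ 2 := by
    push_cast
    ring
  rw [e4, e1, e2, e3]
  push_cast
  field_simp
  ring

lemma ww_pz (i m : Fin (n + 3)) (s : ℂ) (hm : m ≠ 0) :
    ww i (pz n s) m = if m = i then 1 else 0 := by
  unfold ww
  rw [pz_zero, if_neg hm]
  simp

lemma two_ne_zero' : (2 : Fin (n + 3)) ≠ 0 := by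
  intro h
  have := congrArg Fin.val h
  simp at this
  rw [Nat.mod_eq_of_lt (by omega)] at this
  omega

lemma pullback_theta {A : ℝ} (hA : 1 ≤ A) (s : ℂ) :
    pullback (phi n) (theta hA 1 2).coef s =
      ((chi A (pz n s) * (aa A (‖ff s‖ ^ 2) * ‖deriv ff s‖ ^ 2 +
        aa 1 (‖gg s‖ ^ 2) * ‖deriv gg s‖ ^ 2) : ℝ) : ℂ) := by
  rw [pullback_eq]
  have h10 : (1 : Fin (n + 3)) ≠ 0 := by simp
  simp only [theta, half]
  rw [ww_pz 1 1 s h10, ww_pz 1 2 s two_ne_zero', ww_pz 2 1 s h10, ww_pz 2 2 s two_ne_zero',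
    if_pos rfl, if_pos rfl, if_neg one_ne_two', if_neg one_ne_two'.symm, pz_one, pz_two, pz_zero]
  have e1 : ((‖deriv ff s‖ ^ 2 : ℝ) : ℂ) = deriv ff s * (starRingEnd ℂ) (deriv ff s) := by
    rw [Complex.mul_conj, Complex.normSq_eq_norm_sq]
  have e2 : ((‖deriv gg s‖ ^ 2 : ℝ) : ℂ) = deriv gg s * (starRingEnd ℂ) (deriv gg s) := by
    rw [Complex.mul_conj, Complex.normSq_eq_norm_sq]
  rw [Complex.ofReal_mul, Complex.ofReal_add, Complex.ofReal_mul (aa A _), e1,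
    Complex.ofReal_mul (aa 1 _), e2]
  simp only [inv_one, mul_one, map_one, map_zero, mul_zero]
  ring

/-- A constant larger than `|F|²` on the unit disc. -/
lemma exists_bound : ∃ A : ℝ, 1 ≤ A ∧ ∀ t : ℂ, ‖t‖ ≤ 1 → ‖FF t‖ ^ 2 < A := by
  obtain ⟨C, hC⟩ := (isCompact_closedBall (0 : ℂ) 1).exists_bound_of_continuousOn
    differentiable_FF.continuous.continuousOn
  refine ⟨C ^ 2 + 1, by nlinarith [sq_nonneg C], fun t ht => ?_⟩
  have h1 := hC t (by simpa using ht)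
  have h2 : ‖FF t‖ ^ 2 ≤ C ^ 2 := pow_le_pow_left₀ (norm_nonneg _) h1 2
  linarith

lemma chi_eq_one {A : ℝ} (hA : 1 ≤ A) (s : ℂ)
    (h : 1 + (‖ff s‖ ^ 2 + ‖gg s‖ ^ 2) ≤ 2 * A + 2) : chi A (pz n s) = 1 := by
  unfold chi
  apply Real.smoothTransition.one_of_one_le
  unfold ratio
  rw [sum_pz, pz_zero, norm_one, one_pow, one_mul]
  have hpos : 0 < 1 + (‖ff s‖ ^ 2 + ‖gg s‖ ^ 2) := by positivity
  rw [← div_eq_mul_inv]
  have : 2 ≤ 2 * (2 * A + 2) / (1 + (‖ff s‖ ^ 2 + ‖gg s‖ ^ 2)) := by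
    rw [le_div_iff₀ hpos]
    linarith
  linarith

lemma pullback_theta' {A : ℝ} (hA : 1 ≤ A) (hA' : ∀ t : ℂ, ‖t‖ ≤ 1 → ‖FF t‖ ^ 2 < A) (s : ℂ) :
    pullback (phi n) (theta hA 1 2).coef s =
      ((lap (fun z => kk A (‖ff z‖ ^ 2) + kk 1 (‖gg z‖ ^ 2)) s / 4 : ℝ) : ℂ) := by
  rw [pullback_theta, lap_add (contDiff_kk_comp hA differentiable_ff)
    (contDiff_kk_comp le_rfl differentiable_gg), lap_kk hA differentiable_ff,
    lap_kk le_rfl differentiable_gg]
  congr 1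
  have hgg : ‖gg s‖ = 1 / ‖exp s‖ := by unfold gg; rw [norm_div, norm_one]
  have hexp : 0 < ‖exp s‖ := norm_pos_iff.2 (Complex.exp_ne_zero s)
  have key : chi A (pz n s) = 1 ∨ (aa A (‖ff s‖ ^ 2) = 0 ∧ aa 1 (‖gg s‖ ^ 2) = 0) := by
    by_cases h1 : aa A (‖ff s‖ ^ 2) = 0
    · by_cases h2 : aa 1 (‖gg s‖ ^ 2) = 0
      · exact Or.inr ⟨h1, h2⟩
      · left
        apply chi_eq_one hA
        obtain ⟨h3, h4⟩ := aa_support le_rfl h2
        have h5 : ‖exp s‖ ≤ 1 := by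
          have h6 : 1 ≤ ‖gg s‖ := by
            by_contra hc
            have : ‖gg s‖ ^ 2 < 1 := by
              have := norm_nonneg (gg s)
              nlinarith [not_le.1 hc]
            linarith
          rw [hgg, le_div_iff₀ hexp, one_mul] at h6
          exact h6
        have h7 : ‖ff s‖ ^ 2 < A := hA' _ h5
        linarith
    · left
      apply chi_eq_one hA
      obtain ⟨h3, h4⟩ := aa_support hA h1
      have h5 : 1 < ‖exp s‖ := by
        by_contra hc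
        have : ‖ff s‖ ^ 2 < A := hA' _ (not_lt.1 hc)
        linarith
      have h6 : ‖gg s‖ ^ 2 ≤ 1 := by
        rw [hgg, div_pow, one_pow, div_le_one (by positivity)]
        nlinarith
      linarith
  rcases key with h | ⟨h1, h2⟩
  · rw [h]
    ring
  · rw [h1, h2]
    ring

end Curve

end Pool.Agent.MPf94db8
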