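import Pool.Agent.MPf94db8.Defs
import Pool.Agent.MPf94db8.Cutoff

/-!
# Nevanlinna integrals of Laplacians (helper for `MP_f94db8_an`)
-/

open Metric Filter Topology MeasureTheory Complex
open scoped ContDiff

namespace Pool.Agent.MPf94db8

lemma nevanlinnaIntegral_lap {u : ℂ → ℝ} (hu : ContDiff ℝ 2 u) {r : ℝ} (hr : 0 ≤ r) :
    nevanlinnaIntegral (fun ζ => ((lap u ζ / 4 : ℝ) : ℂ)) r =
      (((circInt u r - 2 * Real.pi * u 0) / 4 : ℝ) : ℂ) := by
  unfold nevanlinnaIntegral
  have h1 : ∀ t : ℝ, (1 / t : ℝ) • ∫ ζ in ball (0 : ℂ) t, ((lap u ζ / 4 : ℝ) : ℂ) =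
      (((1 / t) * (∫ ζ in ball (0 : ℂ) t, lap u ζ) / 4 : ℝ) : ℂ) := by
    intro t
    rw [integral_complex_ofReal, MeasureTheory.integral_div, Complex.real_smul, ← Complex.ofReal_mul]
    congr 1
    ring
  simp only [h1]
  rw [intervalIntegral.integral_ofReal, intervalIntegral.integral_div, jensen_smooth hu hr]

lemma circInt_le {u v : ℂ → ℝ} (hu : Continuous u) (hv : Continuous v) {C : ℝ}
    (h : ∀ z, u z ≤ v z + C) (r : ℝ) : circInt u r ≤ circInt v r + 2 * Real.pi * C := by
  have hpi := Real.pi_pos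
  unfold circInt
  have h1 : ∫ θ in (-Real.pi)..Real.pi, u ((r : ℂ) * unitVec θ) ≤
      ∫ θ in (-Real.pi)..Real.pi, (v ((r : ℂ) * unitVec θ) + C) := by
    have hc := continuous_unitVec
    apply intervalIntegral.integral_mono_on (by linarith)
    · exact Continuous.intervalIntegrable (by fun_prop) _ _
    · exact Continuous.intervalIntegrable (by fun_prop) _ _
    · intro θ _
      exact h _
  have h2 : ∫ θ in (-Real.pi)..Real.pi, (v ((r : ℂ) * unitVec θ) + C) =
      (∫ θ in (-Real.pi)..Real.pi, v ((r : ℂ) * unitVec θ)) + 2 * Real.pi * C := by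
    have hc := continuous_unitVec
    rw [intervalIntegral.integral_add (Continuous.intervalIntegrable (by fun_prop) _ _)
      (Continuous.intervalIntegrable (by fun_prop) _ _), intervalIntegral.integral_const,
      smul_eq_mul]
    ring
  linarith

/-- The potential of the Fubini-Study form along the curve. -/
noncomputable def uFS (f g : ℂ → ℂ) (z : ℂ) : ℝ := Real.log (1 + (‖f z‖ ^ 2 + ‖g z‖ ^ 2))

section Two

variable {f g : ℂ → ℂ} (hf : Differentiable ℂ f) (hg : Differentiable ℂ g)
include hf hg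

lemma contDiff_uFS : ContDiff ℝ 2 (uFS f g) := by
  apply contDiff_two
  unfold uFS
  apply ContDiff.log
  · exact contDiff_const.add ((contDiff_norm_sq' hf).add (contDiff_norm_sq' hg))
  · intro z
    positivity

lemma lap_uFS (z : ℂ) : lap (uFS f g) z =
    4 * ((‖deriv f z‖ ^ 2 + ‖deriv g z‖ ^ 2) / (1 + (‖f z‖ ^ 2 + ‖g z‖ ^ 2)) -
      ‖(starRingEnd ℂ) (f z) * deriv f z + (starRingEnd ℂ) (g z) * deriv g z‖ ^ 2 /
        (1 + (‖f z‖ ^ 2 + ‖g z‖ ^ 2)) ^ 2) := by
  have cf := contDiff_two (contDiff_norm_sq' hf)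
  have cg := contDiff_two (contDiff_norm_sq' hg)
  have hpos : ∀ z, 1 + (‖f z‖ ^ 2 + ‖g z‖ ^ 2) ≠ 0 := fun z => by positivity
  have h1 := lap_comp (Q := fun z => ‖f z‖ ^ 2 + ‖g z‖ ^ 2) (K := fun x => Real.log (1 + x))
    (K' := fun x => (1 + x)⁻¹) (K'' := fun x => -((1 + x) ^ 2)⁻¹) (cf.add cg)
    (fun z => by
      have := ((hasDerivAt_id (‖f z‖ ^ 2 + ‖g z‖ ^ 2)).const_add 1).log (hpos z)
      refine this.congr_deriv ?_
      simp)
    (fun z => by
      have := ((hasDerivAt_id (‖f z‖ ^ 2 + ‖g z‖ ^ 2)).const_add 1).fun_inv (hpos z)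
      refine this.congr_deriv ?_
      simp only [id]
      field_simp) z
  have h2 : lap (uFS f g) z = lap (fun z => Real.log (1 + (‖f z‖ ^ 2 + ‖g z‖ ^ 2))) z := rfl
  rw [h2, h1, lap_add cf cg, lap_norm_sq hf, lap_norm_sq hg,
    dx_add (cf.differentiable two_ne_zero) (cg.differentiable two_ne_zero),
    dy_add (cf.differentiable two_ne_zero) (cg.differentiable two_ne_zero),
    dx_norm_sq hf, dx_norm_sq hg, dy_norm_sq hf, dy_norm_sq hg]
  rw [← Complex.normSq_eq_norm_sq (_ + _), Complex.normSq_apply]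
  simp only [Complex.add_re, Complex.add_im]
  have := hpos z
  field_simp
  ring

end Two

lemma circInt_growth {f : ℂ → ℂ} (hf : Differentiable ℂ f) {r : ℝ} (hr : 0 ≤ r) :
    Real.pi * r ≤ circInt (uFS f (fun s => 1 / exp s)) r := by
  have hpi := Real.pi_pos
  have hg : Differentiable ℂ (fun s => 1 / exp s) := by
    intro s
    exact (differentiableAt_const _).div Complex.differentiable_exp.differentiableAt
      (Complex.exp_ne_zero s)
  have hcu := (contDiff_uFS hf hg).continuous
  have hc := continuous_unitVec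
  have key : ∀ z : ℂ, |z.re| - z.re ≤ uFS f (fun s => 1 / exp s) z := by
    intro z
    have h1 : ‖1 / exp z‖ ^ 2 = Real.exp (-2 * z.re) := by
      rw [norm_div, norm_one, Complex.norm_exp, one_div, ← Real.exp_neg, ← Real.exp_nat_mul]
      congr 1
      push_cast
      ring
    have h2 : Real.exp (|z.re| - z.re) ≤ 1 + (‖f z‖ ^ 2 + ‖1 / exp z‖ ^ 2) := by
      rw [h1]
      rcases abs_cases z.re with ⟨h, h'⟩ | ⟨h, h'⟩
      · rw [h, sub_self, Real.exp_zero]
        have := Real.exp_pos (-2 * z.re)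
        nlinarith [sq_nonneg ‖f z‖]
      · rw [h]
        have : -z.re - z.re = -2 * z.re := by ring
        rw [this]
        nlinarith [sq_nonneg ‖f z‖]
    have h3 := Real.log_le_log (Real.exp_pos _) h2
    rw [Real.log_exp] at h3
    exact h3
  have h1 : ∫ θ in (-Real.pi)..Real.pi, (r * Real.cos θ ^ 2 - r * Real.cos θ) ≤
      circInt (uFS f (fun s => 1 / exp s)) r := by
    unfold circInt
    apply intervalIntegral.integral_mono_on (by linarith)
    · exact Continuous.intervalIntegrable (by fun_prop) _ _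
    · exact Continuous.intervalIntegrable (by fun_prop) _ _
    · intro θ _
      have h2 := key ((r : ℂ) * unitVec θ)
      have h3 : ((r : ℂ) * unitVec θ).re = r * Real.cos θ := by
        unfold unitVec
        simp [Complex.cos_ofReal_re, Complex.sin_ofReal_im]
      rw [h3] at h2
      have h4 : r * Real.cos θ ^ 2 ≤ |r * Real.cos θ| := by
        rw [abs_mul, abs_of_nonneg hr]
        apply mul_le_mul_of_nonneg_left _ hr
        rw [← sq_abs]
        have := Real.abs_cos_le_one θ
        nlinarith [abs_nonneg (Real.cos θ)]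
      linarith
  have h5 : ∫ θ in (-Real.pi)..Real.pi, (r * Real.cos θ ^ 2 - r * Real.cos θ) = Real.pi * r := by
    rw [intervalIntegral.integral_sub (Continuous.intervalIntegrable (by fun_prop) _ _)
      (Continuous.intervalIntegrable (by fun_prop) _ _),
      intervalIntegral.integral_const_mul, intervalIntegral.integral_const_mul, integral_cos_sq,
      integral_cos]
    simp
    ring
  linarith

end Pool.Agent.MPf94db8
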