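import Pool.Agent.MPf94db8.Algebra

/-!
# The leaf is not contained in an algebraic curve (helper for `MP_f94db8_an`)
-/

open Filter Topology Complex

namespace Pool.Agent.MPf94db8

open Polynomial in
lemma continuous_evalEval (R : ℂ[X][X]) :
    Continuous fun p : ℂ × ℂ => Polynomial.evalEval p.1 p.2 R := by
  have h : (fun p : ℂ × ℂ => Polynomial.evalEval p.1 p.2 R) =
      fun p : ℂ × ℂ => ∑ i ∈ Finset.range (R.natDegree + 1), (R.coeff i).eval p.1 * p.2 ^ i := by
    funext p
    unfold Polynomial.evalEval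
    rw [Polynomial.eval_eq_sum_range (p := R), Polynomial.eval_finsetSum]
    simp
  rw [h]
  fun_prop

lemma tendsto_shift (τ : ℂ) :
    Tendsto (fun m : ℕ => τ + (m : ℂ) * (2 * Real.pi * I)) atTop (Bornology.cobounded ℂ) := by
  have hpi : (0 : ℝ) < 2 * Real.pi := by positivity
  rw [← tendsto_norm_atTop_iff_cobounded]
  have h1 : Tendsto (fun m : ℕ => (m : ℝ) * (2 * Real.pi) - ‖τ‖) atTop atTop := by
    apply tendsto_atTop_add_const_right
    exact tendsto_natCast_atTop_atTop.atTop_mul_const hpi
  refine tendsto_atTop_mono ?_ h1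
  intro m
  have h2 : ‖(m : ℂ) * (2 * Real.pi * I)‖ = (m : ℝ) * (2 * Real.pi) := by
    simp [abs_of_pos Real.pi_pos]
  have h3 := norm_sub_norm_le ((m : ℂ) * (2 * Real.pi * I)) (-τ)
  rw [h2, norm_neg, sub_neg_eq_add, add_comm _ τ] at h3
  exact h3

open Polynomial in
lemma coeff_zero_of_vanish (R : ℂ[X][X])
    (h : ∀ t : ℂ, t ≠ 0 → Polynomial.evalEval (FF t) (1 / t) R = 0) : R.coeff 0 = 0 := by
  have key : ∀ τ : ℂ, (R.coeff 0).eval (exp τ * EE 0 - GG 0) = 0 := by
    intro τ
    have ht := tendsto_shift τ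
    have hne : ∀ᶠ m : ℕ in atTop, τ + (m : ℂ) * (2 * Real.pi * I) ≠ 0 := by
      exact ht.eventually (Bornology.eventually_ne_cobounded 0)
    have hinv : Tendsto (fun m : ℕ => 1 / (τ + (m : ℂ) * (2 * Real.pi * I))) atTop (𝓝 0) := by
      simp only [one_div]
      exact tendsto_inv₀_cobounded.comp ht
    have hF : Tendsto (fun m : ℕ => FF (τ + (m : ℂ) * (2 * Real.pi * I))) atTop
        (𝓝 (exp τ * EE 0 - GG 0)) := by
      have h1 : Tendsto (fun m : ℕ => exp τ * EE (1 / (τ + (m : ℂ) * (2 * Real.pi * I))) -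
          GG (1 / (τ + (m : ℂ) * (2 * Real.pi * I)))) atTop (𝓝 (exp τ * EE 0 - GG 0)) := by
        have hE := (differentiable_EE.continuous.tendsto 0).comp hinv
        have hG := (differentiable_GG.continuous.tendsto 0).comp hinv
        exact (hE.const_mul (exp τ)).sub hG
      refine h1.congr' ?_
      filter_upwards [hne] with m hm
      have hs := split hm
      rw [Complex.exp_add, Complex.exp_nat_mul_two_pi_mul_I, mul_one] at hs
      rw [hs]; ring
    have hlim : Tendsto (fun m : ℕ => Polynomial.evalEval (FF (τ + (m : ℂ) * (2 * Real.pi * I)))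
        (1 / (τ + (m : ℂ) * (2 * Real.pi * I))) R) atTop
        (𝓝 (Polynomial.evalEval (exp τ * EE 0 - GG 0) 0 R)) :=
      ((continuous_evalEval R).tendsto (exp τ * EE 0 - GG 0, 0)).comp (hF.prodMk_nhds hinv)
    have hzero : Tendsto (fun m : ℕ => Polynomial.evalEval (FF (τ + (m : ℂ) * (2 * Real.pi * I)))
        (1 / (τ + (m : ℂ) * (2 * Real.pi * I))) R) atTop (𝓝 0) := by
      refine tendsto_const_nhds.congr' ?_
      filter_upwards [hne] with m hm
      exact (h _ hm).symm
    have := tendsto_nhds_unique hlim hzero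
    unfold Polynomial.evalEval at this
    rw [Polynomial.C_0, ← Polynomial.coeff_zero_eq_eval_zero] at this
    exact this
  apply Polynomial.eq_zero_of_infinite_isRoot
  have hE0 : EE 0 ≠ 0 := Complex.exp_ne_zero _
  have hinf : (Set.range fun m : ℕ => ((m : ℂ) + 1) * EE 0 - GG 0).Infinite := by
    apply Set.infinite_range_of_injective
    intro a b hab
    have h1 : ((a : ℂ) + 1) * EE 0 = ((b : ℂ) + 1) * EE 0 := by
      have := hab
      simp only at this
      linear_combination this
    have h2 := add_right_cancel (mul_right_cancel₀ hE0 h1)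
    exact_mod_cast h2
  refine hinf.mono ?_
  rintro _ ⟨m, rfl⟩
  have hm : ((m : ℂ) + 1) ≠ 0 := by exact_mod_cast Nat.succ_ne_zero m
  have := key (Complex.log ((m : ℂ) + 1))
  rw [Complex.exp_log hm] at this
  exact this

open Polynomial in
lemma independent (d : ℕ) : ∀ R : ℂ[X][X], R.natDegree ≤ d →
    (∀ t : ℂ, t ≠ 0 → Polynomial.evalEval (FF t) (1 / t) R = 0) → R = 0 := by
  induction d with
  | zero =>
    intro R hR h
    have h0 := coeff_zero_of_vanish R h
    rw [Polynomial.eq_C_of_natDegree_le_zero hR, h0, Polynomial.C_0]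
  | succ d ih =>
    intro R hR h
    have h0 := coeff_zero_of_vanish R h
    have h1 := Polynomial.divX_mul_X_add R
    rw [h0, Polynomial.C_0, add_zero] at h1
    have h2 : R.divX = 0 := by
      apply ih
      · rw [Polynomial.natDegree_divX_eq_natDegree_tsub_one]
        omega
      · intro t ht
        have h3 := h t ht
        rw [← h1, Polynomial.evalEval_mul, Polynomial.evalEval_X] at h3
        rcases mul_eq_zero.mp h3 with h4 | h4
        · exact h4
        · exfalso
          exact one_div_ne_zero ht h4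
    rw [← h1, h2, zero_mul]

variable {n : ℕ}

open Polynomial in
/-- Restriction of a polynomial to the plane of the first two coordinates. -/
noncomputable def resPlane (n : ℕ) : MvPolynomial (Fin (n + 2)) ℂ →+* ℂ[X][X] :=
  MvPolynomial.eval₂Hom ((Polynomial.C : ℂ[X] →+* ℂ[X][X]).comp (Polynomial.C : ℂ →+* ℂ[X]))
    (fun i => if i = 0 then Polynomial.C Polynomial.X else if i = 1 then Polynomial.X else 0)

lemma evalEval_resPlane (t : ℂ) (P : MvPolynomial (Fin (n + 2)) ℂ) :
    Polynomial.evalEval (FF t) (1 / t) (resPlane n P) = MvPolynomial.eval (psi n t) P := by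
  unfold resPlane
  induction P using MvPolynomial.induction_on with
  | C a => simp
  | add p q hp hq => simp only [map_add, Polynomial.evalEval_add, hp, hq]
  | mul_X p i hp =>
    rw [map_mul, map_mul, Polynomial.evalEval_mul, hp]
    simp only [MvPolynomial.eval_X, MvPolynomial.coe_eval₂Hom, MvPolynomial.eval₂_X]
    congr 1
    unfold psi
    by_cases h0 : i = 0
    · rw [if_pos h0, if_pos h0, Polynomial.evalEval_C, Polynomial.eval_X]
    · by_cases h1 : i = 1
      · rw [if_neg h0, if_neg h0, if_pos h1, if_pos h1, Polynomial.evalEval_X]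
      · rw [if_neg h0, if_neg h0, if_neg h1, if_neg h1, Polynomial.evalEval_zero]

open Polynomial in
lemma resPlane_surjective : Function.Surjective (resPlane n) := by
  have h01 : (1 : Fin (n + 2)) ≠ 0 := by simp
  let s : ℂ[X][X] →+* MvPolynomial (Fin (n + 2)) ℂ :=
    Polynomial.eval₂RingHom (Polynomial.eval₂RingHom MvPolynomial.C (MvPolynomial.X 0))
      (MvPolynomial.X 1)
  have hs : (resPlane n).comp s = RingHom.id _ := by
    apply Polynomial.ringHom_ext'
    · apply Polynomial.ringHom_ext'
      · ext a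
        simp [s, resPlane]
      · simp [s, resPlane]
    · simp [s, resPlane]
  intro R
  exact ⟨s R, by
    have := congrArg (fun f : ℂ[X][X] →+* ℂ[X][X] => f R) hs
    simpa using this⟩

open Polynomial in
theorem not_subset_algebraicCurve (A : Set (Fin (n + 2) → ℂ)) (hA : IsAlgebraicCurve A) :
    ¬ (psi n '' {t | t ≠ 0}) ⊆ A := by
  obtain ⟨I, hI, rfl⟩ := hA
  intro hsub
  have h1 : ∀ P ∈ I, resPlane n P = 0 := by
    intro P hP
    apply independent _ _ le_rfl
    intro t ht
    rw [evalEval_resPlane]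
    exact hsub ⟨t, ht, rfl⟩ P hP
  let f : (MvPolynomial (Fin (n + 2)) ℂ ⧸ I) →+* ℂ[X][X] := Ideal.Quotient.lift I (resPlane n) h1
  have hf : Function.Surjective f := by
    intro R
    obtain ⟨P, hP⟩ := resPlane_surjective (n := n) R
    exact ⟨Ideal.Quotient.mk I P, by simpa [f] using hP⟩
  have h2 := ringKrullDim_le_of_surjective f hf
  have h3 := ringKrullDim_succ_le_ringKrullDim_polynomial (R := ℂ)
  have h4 := ringKrullDim_succ_le_ringKrullDim_polynomial (R := ℂ[X])
  rw [ringKrullDim_eq_zero_of_field] at h3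
  have h5 : (2 : WithBot ℕ∞) ≤ 1 := by
    calc (2 : WithBot ℕ∞) = 0 + 1 + 1 := by norm_num
      _ ≤ ringKrullDim ℂ[X] + 1 := by gcongr
      _ ≤ ringKrullDim ℂ[X][X] := h4
      _ ≤ _ := h2
      _ ≤ 1 := hI
  have h6 : ¬ (2 : WithBot ℕ∞) ≤ 1 := by
    rw [not_le]
    exact_mod_cast (by norm_num : (1 : ℕ) < 2)
  exact h6 h5

end Pool.Agent.MPf94db8
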