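import Pool.Agent.MPf94db8.Jensen

/-!
# Laplacians of functions of `|f|²` (helper for `MP_f94db8_an`)
-/

open Metric Filter Topology MeasureTheory Complex
open scoped ContDiff

namespace Pool.Agent.MPf94db8

lemma dx_add {u v : ℂ → ℝ} (hu : Differentiable ℝ u) (hv : Differentiable ℝ v) (z : ℂ) :
    dx (fun z => u z + v z) z = dx u z + dx v z := by
  unfold dx
  rw [fderiv_fun_add (hu z) (hv z)]
  rfl

lemma dy_add {u v : ℂ → ℝ} (hu : Differentiable ℝ u) (hv : Differentiable ℝ v) (z : ℂ) :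
    dy (fun z => u z + v z) z = dy u z + dy v z := by
  unfold dy
  rw [fderiv_fun_add (hu z) (hv z)]
  rfl

lemma lap_eq (u : ℂ → ℝ) (z : ℂ) : lap u z = dx (dx u) z + dy (dy u) z := rfl

lemma differentiable_dx {u : ℂ → ℝ} (hu : ContDiff ℝ 2 u) : Differentiable ℝ (dx u) :=
  (contDiff_dx hu).differentiable one_ne_zero

lemma differentiable_dy {u : ℂ → ℝ} (hu : ContDiff ℝ 2 u) : Differentiable ℝ (dy u) :=
  (contDiff_dy hu).differentiable one_ne_zero

lemma lap_add {u v : ℂ → ℝ} (hu : ContDiff ℝ 2 u) (hv : ContDiff ℝ 2 v) (z : ℂ) :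
    lap (fun z => u z + v z) z = lap u z + lap v z := by
  have hu' := hu.differentiable two_ne_zero
  have hv' := hv.differentiable two_ne_zero
  rw [lap_eq, lap_eq, lap_eq]
  have h1 : dx (fun z => u z + v z) = fun z => dx u z + dx v z := funext (dx_add hu' hv')
  have h2 : dy (fun z => u z + v z) = fun z => dy u z + dy v z := funext (dy_add hu' hv')
  rw [h1, h2, dx_add (differentiable_dx hu) (differentiable_dx hv),
    dy_add (differentiable_dy hu) (differentiable_dy hv)]
  ring

lemma lap_comp {Q : ℂ → ℝ} (hQ : ContDiff ℝ 2 Q) {K K' K'' : ℝ → ℝ}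
    (h1 : ∀ z, HasDerivAt K (K' (Q z)) (Q z)) (h2 : ∀ z, HasDerivAt K' (K'' (Q z)) (Q z))
    (z : ℂ) : lap (fun z => K (Q z)) z =
      K' (Q z) * lap Q z + K'' (Q z) * ((dx Q z) ^ 2 + (dy Q z) ^ 2) := by
  have hQ' := hQ.differentiable two_ne_zero
  have e : ∀ v : ℂ, ∀ z, fderiv ℝ (fun z => K (Q z)) z v = K' (Q z) * fderiv ℝ Q z v := by
    intro v z
    have := (h1 z).comp_hasFDerivAt z (hQ' z).hasFDerivAt
    have h3 := this.fderiv
    change fderiv ℝ (K ∘ Q) z v = _
    rw [h3]
    simp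
  have e2 : ∀ v : ℂ, ∀ z, fderiv ℝ (fun z => K' (Q z)) z v = K'' (Q z) * fderiv ℝ Q z v := by
    intro v z
    have := (h2 z).comp_hasFDerivAt z (hQ' z).hasFDerivAt
    have h3 := this.fderiv
    change fderiv ℝ (K' ∘ Q) z v = _
    rw [h3]
    simp
  have hK' : Differentiable ℝ (fun z => K' (Q z)) := fun z =>
    ((h2 z).comp_hasFDerivAt z (hQ' z).hasFDerivAt).differentiableAt
  have f1 : dx (fun z => K (Q z)) = fun z => K' (Q z) * dx Q z := funext (e 1)
  have f2 : dy (fun z => K (Q z)) = fun z => K' (Q z) * dy Q z := funext (e I)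
  rw [lap_eq, lap_eq, f1, f2]
  have g1 : dx (fun z => K' (Q z) * dx Q z) z =
      K' (Q z) * dx (dx Q) z + K'' (Q z) * dx Q z * dx Q z := by
    have := fderiv_fun_mul (hK' z) (differentiable_dx hQ z)
    have e3 := e2 1 z
    change fderiv ℝ (fun z => K' (Q z) * dx Q z) z 1 = _
    rw [this]
    simp only [_root_.add_apply, _root_.smul_apply, smul_eq_mul, e3]
    unfold dx
    ring
  have g2 : dy (fun z => K' (Q z) * dy Q z) z =
      K' (Q z) * dy (dy Q) z + K'' (Q z) * dy Q z * dy Q z := by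
    have := fderiv_fun_mul (hK' z) (differentiable_dy hQ z)
    have e3 := e2 I z
    change fderiv ℝ (fun z => K' (Q z) * dy Q z) z I = _
    rw [this]
    simp only [_root_.add_apply, _root_.smul_apply, smul_eq_mul, e3]
    unfold dy
    ring
  rw [g1, g2]
  ring

section Entire

variable {f : ℂ → ℂ} (hf : Differentiable ℂ f)
include hf

lemma hasFDerivAt_real (z : ℂ) :
    HasFDerivAt f ((ContinuousLinearMap.toSpanSingleton ℂ (deriv f z)).restrictScalars ℝ) z :=
  ((hf z).hasDerivAt.hasFDerivAt).restrictScalars ℝ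

lemma contDiff_real : ContDiff ℝ ∞ f := (hf.contDiff (n := ∞)).restrict_scalars ℝ

lemma differentiable_deriv : Differentiable ℂ (deriv f) :=
  fun z => ((hf.analyticAt z).deriv).differentiableAt

lemma contDiff_norm_sq' : ContDiff ℝ ∞ (fun z => ‖f z‖ ^ 2) :=
  (contDiff_real hf).norm_sq ℝ

lemma fderiv_norm_sq (z v : ℂ) :
    fderiv ℝ (fun z => ‖f z‖ ^ 2) z v = 2 * ((starRingEnd ℂ) (f z) * deriv f z * v).re := by
  have h1 := (hasFDerivAt_real hf z).norm_sq
  rw [h1.fderiv]
  simp only [_root_.smul_apply, ContinuousLinearMap.comp_apply,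
    innerSL_apply_apply, ContinuousLinearMap.coe_restrictScalars',
    ContinuousLinearMap.toSpanSingleton_apply, smul_eq_mul, Complex.inner, nsmul_eq_mul]
  push_cast
  simp only [Complex.mul_re, Complex.mul_im, Complex.conj_re, Complex.conj_im]
  ring

lemma dx_norm_sq (z : ℂ) :
    dx (fun z => ‖f z‖ ^ 2) z = 2 * ((starRingEnd ℂ) (f z) * deriv f z).re := by
  unfold dx
  rw [fderiv_norm_sq hf, mul_one]

lemma dy_norm_sq (z : ℂ) :
    dy (fun z => ‖f z‖ ^ 2) z = -2 * ((starRingEnd ℂ) (f z) * deriv f z).im := by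
  unfold dy
  rw [fderiv_norm_sq hf]
  simp only [Complex.mul_re, Complex.mul_im, Complex.conj_re, Complex.conj_im, Complex.I_re,
    Complex.I_im]
  ring

lemma lap_norm_sq (z : ℂ) : lap (fun z => ‖f z‖ ^ 2) z = 4 * ‖deriv f z‖ ^ 2 := by
  rw [lap_eq]
  have h1 : dx (fun z => ‖f z‖ ^ 2) = fun z => 2 * ((starRingEnd ℂ) (f z) * deriv f z).re :=
    funext (dx_norm_sq hf)
  have h2 : dy (fun z => ‖f z‖ ^ 2) = fun z => -2 * ((starRingEnd ℂ) (f z) * deriv f z).im :=
    funext (dy_norm_sq hf)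
  rw [h1, h2]
  have hd := hasFDerivAt_real (differentiable_deriv hf) z
  have hc : HasFDerivAt (fun z => (starRingEnd ℂ) (f z))
      ((Complex.conjCLE : ℂ →L[ℝ] ℂ).comp
        ((ContinuousLinearMap.toSpanSingleton ℂ (deriv f z)).restrictScalars ℝ)) z :=
    (Complex.conjCLE : ℂ →L[ℝ] ℂ).hasFDerivAt.comp z (hasFDerivAt_real hf z)
  have hp := hc.mul hd
  have hre := (Complex.reCLM.hasFDerivAt.comp z hp).const_mul 2
  have him := (Complex.imCLM.hasFDerivAt.comp z hp).const_mul (-2)
  have e1 : dx (fun z => 2 * ((starRingEnd ℂ) (f z) * deriv f z).re) z =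
      2 * ((starRingEnd ℂ) (f z) * deriv (deriv f) z +
        (starRingEnd ℂ) (deriv f z) * deriv f z).re := by
    unfold dx
    have := hre.fderiv
    simp only [Function.comp_def, Complex.reCLM_apply, Pi.mul_apply] at this
    rw [this]
    simp
    ring
  have e2 : dy (fun z => -2 * ((starRingEnd ℂ) (f z) * deriv f z).im) z =
      -2 * ((starRingEnd ℂ) (f z) * (deriv (deriv f) z * I) +
        (starRingEnd ℂ) (deriv f z * I) * deriv f z).im := by
    unfold dy
    have := him.fderiv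
    simp only [Function.comp_def, Complex.imCLM_apply, Pi.mul_apply] at this
    rw [this]
    simp
    ring
  rw [e1, e2, ← Complex.normSq_eq_norm_sq, Complex.normSq_apply]
  simp only [Complex.add_re, Complex.add_im, Complex.mul_re, Complex.mul_im, Complex.conj_re,
    Complex.conj_im, Complex.I_re, Complex.I_im]
  ring

end Entire

end Pool.Agent.MPf94db8
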