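import Pool.Agent.MPf94db8.Form
import Pool.Agent.MPf94db8.Cluster
import Pool.Agent.MPf94db8.Independence

/-!
# The cluster points are not supported at infinity (helper for `MP_f94db8_an`)
-/

open Metric Filter Topology MeasureTheory Complex
open scoped ContDiff

namespace Pool.Agent.MPf94db8

variable {n : ℕ}

lemma characteristic_phi {r : ℝ} (hr : 0 ≤ r) :
    characteristic (phi n) r =
      (((circInt (uFS ff gg) r - 2 * Real.pi * uFS ff gg 0) / 4 : ℝ) : ℂ) := by
  unfold characteristic
  rw [← nevanlinnaIntegral_lap (contDiff_uFS differentiable_ff differentiable_gg) hr]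
  congr 1
  funext s
  exact pullback_fubiniStudy s

lemma characteristic_phi_lower {r : ℝ} (hr : 0 ≤ r) :
    (Real.pi * r - 2 * Real.pi * uFS ff gg 0) / 4 ≤
      (circInt (uFS ff gg) r - 2 * Real.pi * uFS ff gg 0) / 4 := by
  have := circInt_growth differentiable_ff hr
  change Real.pi * r ≤ circInt (uFS ff gg) r at this
  linarith

lemma realNev_dens_phi {r : ℝ} (hr : 0 ≤ r) :
    realNev (dens (phi n)) r = (circInt (uFS ff gg) r - 2 * Real.pi * uFS ff gg 0) / 4 := by
  have h1 := characteristic_phi (n := n) hr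
  have h2 : characteristic (phi n) r = ((realNev (dens (phi n)) r : ℝ) : ℂ) := by
    unfold characteristic
    rw [← nevanlinnaIntegral_ofReal]
    congr 1
    funext s
    exact pullback_fs s
  rw [h2] at h1
  exact_mod_cast h1

lemma tendsto_lower : Tendsto (fun r : ℝ => (Real.pi * r - 2 * Real.pi * uFS ff gg 0) / 4)
    atTop atTop := by
  apply Tendsto.atTop_div_const (by norm_num)
  simp only [sub_eq_add_neg]
  apply tendsto_atTop_add_const_right
  exact tendsto_id.const_mul_atTop Real.pi_pos

theorem exists_clusterPoint_phi : ∃ τ : TestForm (n + 2) → ℂ, IsClusterPoint (phi n) τ := by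
  apply exists_clusterPoint differentiable_phi
  have h1 := tendsto_lower.comp tendsto_natCast_atTop_atTop
  refine tendsto_atTop_mono (fun m => ?_) h1
  rw [realNev_dens_phi (Nat.cast_nonneg m)]
  exact characteristic_phi_lower (Nat.cast_nonneg m)

theorem not_supportedAtInfinity (τ : TestForm (n + 2) → ℂ) (hτ : IsClusterPoint (phi n) τ) :
    ¬ SupportedAtInfinity τ := by
  intro hs
  obtain ⟨A, hA, hA'⟩ := exists_bound
  have h0 := hs (theta hA 1 2) (theta_vanish hA 1 2)
  obtain ⟨r, hr, hlim⟩ := hτ
  have hl := hlim (theta hA 1 2)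
  rw [h0] at hl
  -- the potential of the test form
  set V : ℂ → ℝ := fun z => kk A (‖ff z‖ ^ 2) + kk 1 (‖gg z‖ ^ 2) with hV
  have hVc : ContDiff ℝ 2 V :=
    (contDiff_kk_comp hA differentiable_ff).add (contDiff_kk_comp le_rfl differentiable_gg)
  have hu : ContDiff ℝ 2 (uFS ff gg) := contDiff_uFS differentiable_ff differentiable_gg
  set C : ℝ := Real.log (1 + 2 * A) + Real.log (1 + 2 * 1) with hC
  have hle : ∀ z, uFS ff gg z ≤ V z + C := by
    intro z
    have h1 := kk_lower hA (sq_nonneg ‖ff z‖)
    have h2 := kk_lower (le_refl (1 : ℝ)) (sq_nonneg ‖gg z‖)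
    have h3 : uFS ff gg z ≤ Real.log (1 + ‖ff z‖ ^ 2) + Real.log (1 + ‖gg z‖ ^ 2) := by
      unfold uFS
      rw [← Real.log_mul (by positivity) (by positivity)]
      apply Real.log_le_log (by positivity)
      nlinarith [mul_nonneg (sq_nonneg ‖ff z‖) (sq_nonneg ‖gg z‖)]
    simp only [hV, hC]
    linarith
  set D : ℝ := (2 * Real.pi * C - 2 * Real.pi * uFS ff gg 0 + 2 * Real.pi * V 0) / 4 with hD
  set T : ℝ → ℝ := fun r => (circInt (uFS ff gg) r - 2 * Real.pi * uFS ff gg 0) / 4 with hTdef
  have hTT : Tendsto (fun j => T (r j)) atTop atTop := by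
    have h1 := tendsto_lower.comp hr
    refine tendsto_atTop_mono' _ ?_ h1
    filter_upwards [hr.eventually_ge_atTop 0] with j hj
    exact characteristic_phi_lower hj
  have hcur : ∀ᶠ j in atTop, 1 - D / T (r j) ≤
      (nevanlinnaCurrent (phi n) (r j) (theta hA 1 2)).re := by
    filter_upwards [hr.eventually_ge_atTop 0, hTT.eventually_gt_atTop 0] with j hj hj'
    have e1 : nevanlinnaIntegral (pullback (phi n) (theta hA 1 2).coef) (r j) =
        (((circInt V (r j) - 2 * Real.pi * V 0) / 4 : ℝ) : ℂ) := by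
      rw [← nevanlinnaIntegral_lap hVc hj]
      congr 1
      funext s
      exact pullback_theta' hA hA' s
    unfold nevanlinnaCurrent
    rw [e1, characteristic_phi hj, ← Complex.ofReal_div, Complex.ofReal_re]
    have h1 := circInt_le hu.continuous hVc.continuous hle (r j)
    have h2 : T (r j) - D ≤ (circInt V (r j) - 2 * Real.pi * V 0) / 4 := by
      simp only [hTdef, hD]
      linarith
    have h3 : 1 - D / T (r j) = (T (r j) - D) / T (r j) := by
      field_simp
    rw [h3]
    change (T (r j) - D) / T (r j) ≤ (circInt V (r j) - 2 * Real.pi * V 0) / 4 / T (r j)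
    gcongr
  have hl1 : Tendsto (fun j => 1 - D / T (r j)) atTop (𝓝 (1 - 0)) :=
    tendsto_const_nhds.sub (tendsto_const_nhds.div_atTop hTT)
  have hl2 : Tendsto (fun j => (nevanlinnaCurrent (phi n) (r j) (theta hA 1 2)).re) atTop
      (𝓝 (0 : ℂ).re) := (Complex.continuous_re.tendsto 0).comp hl
  have := le_of_tendsto_of_tendsto hl1 hl2 hcur
  norm_num at this

end Pool.Agent.MPf94db8
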